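import Pool.Agent.PR33.Defs

/-!
# [PR33-Front] the first run of a preimage with long gaps (helper95)
-/

set_option autoImplicit false

namespace Pool.Agent.PR33

open Pool.Agent.PostTag Pool.Agent.PT33 List

theorem fr_gap (A : ℕ) : T 1 (code [6 * A + 7]) = replicate (4 * A + 6) false ∧
    (1 + chi (code [6 * A + 7])) % 3 = 1 ∧ (code [6 * A + 7]).count true = 1 := by
  have e1 : code [6 * A + 7] = replicate (6 * A + 7) false ++ [true] := by
    have : (6 * A + 7) % 2 = 1 := by omega
    simp [code, run1, this]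
  have e2 : nm 1 (6 * A + 7) = 4 * A + 5 := by simp only [nm]; omega
  have e5 : chi [true] = 2 := rfl
  rw [e1]
  refine ⟨?_, ?_, ?_⟩
  · have e6 : ([false] : List Bool) = replicate 1 false := rfl
    rw [T_gap, T_run2 (by omega), e2, e6, ← List.replicate_add]
  · rw [chi_append, chi_replicate, e5]
    omega
  · simp [List.count_append, List.count_replicate]

theorem fr_gaps (A y : ℕ) : T 1 (code (replicate y (6 * A + 7))) = replicate (y * (4 * A + 6)) false ∧
    (1 + chi (code (replicate y (6 * A + 7)))) % 3 = 1 ∧ (code (replicate y (6 * A + 7))).count true = y := by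
  induction y with
  | zero => simp [code]
  | succ y ih =>
    obtain ⟨g1, g2, g3⟩ := fr_gap A
    obtain ⟨h1, h2, h3⟩ := ih
    have e1 : code (replicate (y + 1) (6 * A + 7)) = code [6 * A + 7] ++ code (replicate y (6 * A + 7)) := by
      rw [← code_append]
      rfl
    rw [e1]
    refine ⟨?_, ?_, ?_⟩
    · rw [T_append, g1, T_congr (q := 1) _ (by omega), h1, ← List.replicate_add]
      congr 1
      ring
    · rw [chi_append]
      omega
    · rw [List.count_append, g3, h3]
      omega

theorem fr_last (A ε : ℕ) (hε : ε ≤ 1) : T 1 (code [6 * A + 3 + ε]) = replicate (4 * A + 2 + 2 * ε) false ++ [true] ∧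
    (1 + chi (code [6 * A + 3 + ε])) % 3 = 0 ∧ (code [6 * A + 3 + ε]).count true = 1 + ε := by
  have e5 : chi [true] = 2 := rfl
  obtain rfl | rfl : ε = 0 ∨ ε = 1 := by omega
  · have e1 : code [6 * A + 3 + 0] = replicate (6 * A + 3) false ++ [true] := by
      have : (6 * A + 3) % 2 = 1 := by omega
      simp [code, run1, this]
    have e2 : nm 1 (6 * A + 3) = 4 * A + 2 := by simp only [nm]; omega
    rw [e1]
    refine ⟨?_, ?_, ?_⟩
    · rw [T_gap, T_run1 (by omega), e2]
    · rw [chi_append, chi_replicate, e5]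
      omega
    · simp [List.count_append, List.count_replicate]
  · have e1 : code [6 * A + 3 + 1] = replicate (6 * A + 4) false ++ [true, true] := by
      have : ¬ (6 * A + 4) % 2 = 1 := by omega
      simp [code, run1, this]
    have e2 : nm 1 (6 * A + 4) = 4 * A + 3 := by simp only [nm]; omega
    have e6 : ([false, true] : List Bool) = replicate 1 false ++ [true] := rfl
    have e7 : chi [true, true] = 4 := rfl
    rw [e1]
    refine ⟨?_, ?_, ?_⟩
    · rw [T_gap, T_run22 (by omega), e2, e6, rep_add]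
    · rw [chi_append, chi_replicate, e7]
      omega
    · simp [List.count_append, List.count_replicate]

theorem fr_i (s R b : ℕ) (hR : 4 ≤ R) (hs : R % 2 = 1 ↔ s % 3 = 1) : ∃ i ε : ℕ, ε ≤ 1 ∧ (s + i) % 3 = 2 ∧
    i % 2 = b % 2 ∧ nm s i + 2 * ε = R := by
  have h3 : s % 3 = 0 ∨ s % 3 = 1 ∨ s % 3 = 2 := by omega
  rcases h3 with h3 | h3 | h3
  · by_cases hp : (3 * ((R - 2) / 2) + 2) % 2 = b % 2
    · exact ⟨3 * ((R - 2) / 2) + 2, 0, by omega, by omega, by omega, by simp only [nm]; omega⟩
    · exact ⟨3 * ((R - 4) / 2) + 2, 1, by omega, by omega, by omega, by simp only [nm]; omega⟩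
  · by_cases hp : (3 * ((R - 1) / 2) + 1) % 2 = b % 2
    · exact ⟨3 * ((R - 1) / 2) + 1, 0, by omega, by omega, by omega, by simp only [nm]; omega⟩
    · exact ⟨3 * ((R - 3) / 2) + 1, 1, by omega, by omega, by omega, by simp only [nm]; omega⟩
  · by_cases hp : (3 * (R / 2)) % 2 = b % 2
    · exact ⟨3 * (R / 2), 0, by omega, by omega, by omega, by simp only [nm]; omega⟩
    · exact ⟨3 * ((R - 2) / 2), 1, by omega, by omega, by omega, by simp only [nm]; omega⟩

/-- the first run and the first letter `b`, with long gaps -/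
theorem frontG (A x N s n b : ℕ) (hA : 1 ≤ A) (hn : N + (2 * x + 1) * (4 * A + 6) + 8 ≤ n) (hs : n % 2 = 1 ↔ s % 3 ≠ 1) :
    ∃ (i ε : ℕ) (js : List ℕ), ε ≤ 1 ∧ N ≤ i ∧ i % 2 = b % 2 ∧ (∀ j ∈ js, 6 * A + 3 ≤ j) ∧
      T s (replicate i false ++ (true :: code js)) = replicate n false ++ [true] ∧
        (s + chi (replicate i false ++ (true :: code js))) % 3 = 0 ∧ (code js).count true = 2 * x + 1 + ε := by
  obtain ⟨y, hy⟩ : ∃ y, y = 2 * x := ⟨_, rfl⟩
  obtain ⟨Y, hY⟩ : ∃ Y, Y = y * (4 * A + 6) := ⟨_, rfl⟩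
  have hYe : Y % 2 = 0 := by
    rw [hY, hy, mul_assoc]
    omega
  have hn' : N + Y + (4 * A + 6) + 8 ≤ n := by
    have : (2 * x + 1) * (4 * A + 6) = Y + (4 * A + 6) := by
      rw [hY, hy]
      ring
    omega
  obtain ⟨i, ε, h1, h2, h3, h4⟩ := fr_i s (n - 1 - Y - (4 * A + 2)) b (by omega) (by omega)
  obtain ⟨g1, g2, g3⟩ := fr_gaps A y
  obtain ⟨l1, l2, l3⟩ := fr_last A ε h1
  have e4 : T (s + i) [true] = [false] := T_run2 h2
  have e5 : chi [true] = 2 := rfl
  have e6 : ([false] : List Bool) = replicate 1 false := rfl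
  have e1 : true :: code (replicate y (6 * A + 7) ++ [6 * A + 3 + ε]) =
      [true] ++ (code (replicate y (6 * A + 7)) ++ code [6 * A + 3 + ε]) := by
    rw [code_append]
    rfl
  have hle : nm s i ≤ i := by simp only [nm]; omega
  refine ⟨i, ε, replicate y (6 * A + 7) ++ [6 * A + 3 + ε], h1, by omega, h3, ?_, ?_, ?_, ?_⟩
  · intro j hj
    rw [List.mem_append, List.mem_replicate, List.mem_singleton] at hj
    omega
  · rw [e1, T_gap, T_append, e4, e5, T_congr (q := 1) _ (by omega), T_append, g1,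
      T_congr (q := 1) (code [6 * A + 3 + ε]) (by omega), l1, e6, rep_add, rep_add, rep_add, ← hY]
    congr 2
    omega
  · rw [e1, chi_append, chi_append, chi_append, chi_replicate, e5]
    omega
  · rw [code_append, List.count_append, g3, l3]
    omega

end Pool.Agent.PR33
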