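import Pool.Agent.PR33.Defs

/-!
# [PR33-Piece] preimages of lists of long gaps (helper68)
-/

set_option autoImplicit false

namespace Pool.Agent.PR33

open Pool.Agent.PostTag Pool.Agent.PT33 List

private theorem t_o1 {c j k : ℕ} (hj : j % 2 = 1) (hk : k % 2 = 1) (hn : pend c + nm c j = k)
    (hp : (c + j) % 3 = 1) : replicate (pend c) false ++ T c (code [j]) =
      code [k] ++ replicate (pend 0) false ∧ (c + chi (code [j])) % 3 = 0 := by
  have e1 : code [j] = replicate j false ++ [true] := by simp [code, run1, hj]
  have e2 : code [k] = replicate k false ++ [true] := by simp [code, run1, hk]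
  have e5 : chi [true] = 2 := rfl
  have p0 : pend 0 = 0 := by simp [pend]
  rw [e1, e2, T_gap, T_run1 hp, chi_append, chi_replicate, e5, p0, rep_add, hn]
  refine ⟨by simp, by omega⟩

private theorem t_o2 {c j k : ℕ} (hj : j % 2 = 0) (hk : k % 2 = 1) (hn : pend c + nm c j + 1 = k)
    (hp : (c + j) % 3 = 2) : replicate (pend c) false ++ T c (code [j]) =
      code [k] ++ replicate (pend 0) false ∧ (c + chi (code [j])) % 3 = 0 := by
  have e1 : code [j] = replicate j false ++ [true, true] := by simp [code, run1, hj]
  have e2 : code [k] = replicate k false ++ [true] := by simp [code, run1, hk]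
  have e5 : chi [true, true] = 4 := rfl
  have e6 : ([false, true] : List Bool) = replicate 1 false ++ [true] := rfl
  have p0 : pend 0 = 0 := by simp [pend]
  rw [e1, e2, T_gap, T_run22 hp, chi_append, chi_replicate, e5, p0, e6, rep_add, rep_add, hn]
  refine ⟨by simp, by omega⟩

private theorem t_e {c j k : ℕ} (hj : j % 2 = 1) (hk : k % 2 = 0) (hn : pend c + nm c j = k)
    (hp : (c + j) % 3 = 0) : replicate (pend c) false ++ T c (code [j]) =
      code [k] ++ replicate (pend 2) false ∧ (c + chi (code [j])) % 3 = 2 := by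
  have e1 : code [j] = replicate j false ++ [true] := by simp [code, run1, hj]
  have e2 : code [k] = replicate k false ++ [true, true] := by simp [code, run1, hk]
  have e5 : chi [true] = 2 := rfl
  have p0 : pend 2 = 0 := by simp [pend]
  rw [e1, e2, T_gap, T_run0 hp, chi_append, chi_replicate, e5, p0, rep_add, hn]
  refine ⟨by simp, by omega⟩

private theorem t_f {c j k : ℕ} (hj : j % 2 = 0) (hk : k % 2 = 0) (hn : pend c + nm c j = k)
    (hp : (c + j) % 3 = 0) : replicate (pend c) false ++ T c (code [j]) =
      code [k] ++ replicate (pend 1) false ∧ (c + chi (code [j])) % 3 = 1 := by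
  have e1 : code [j] = replicate j false ++ [true, true] := by simp [code, run1, hj]
  have e2 : code [k] = replicate k false ++ [true, true] := by simp [code, run1, hk]
  have e5 : chi [true, true] = 4 := rfl
  have h2 : (c + j + 2) % 3 = 2 := by omega
  have e7 : T (c + j) [true, true] = [true, true, false] := by
    simp [T, out, hp, wt, h2]
  have p0 : pend 1 = 1 := by simp [pend]
  rw [e1, e2, T_gap, e7, chi_append, chi_replicate, e5, p0, rep_add, hn]
  refine ⟨by simp, by omega⟩

/-- one gap -/
private theorem piece1 (c k : ℕ) (hc : c < 3) (hk : 8 ≤ k) : ∃ j c' : ℕ, c' < 3 ∧ k + 1 ≤ j ∧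
    replicate (pend c) false ++ T c (code [j]) = code [k] ++ replicate (pend c') false ∧
      (c + chi (code [j])) % 3 = c' := by
  obtain ⟨q, hq⟩ : ∃ q, k = 4 * q ∨ k = 4 * q + 1 ∨ k = 4 * q + 2 ∨ k = 4 * q + 3 :=
    ⟨k / 4, by omega⟩
  have h3 : c = 0 ∨ c = 1 ∨ c = 2 := by omega
  have p0 : pend 0 = 0 := by simp [pend]
  have p1 : pend 1 = 1 := by simp [pend]
  have p2 : pend 2 = 0 := by simp [pend]
  rcases h3 with rfl | rfl | rfl
  · rcases hq with rfl | rfl | rfl | rfl
    · exact ⟨6 * q, 1, by norm_num, by omega, t_f (by omega) (by omega)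
        (by rw [p0]; simp only [nm]; omega) (by omega)⟩
    · exact ⟨6 * q + 1, 0, by norm_num, by omega, t_o1 (by omega) (by omega)
        (by rw [p0]; simp only [nm]; omega) (by omega)⟩
    · exact ⟨6 * q + 3, 2, by norm_num, by omega, t_e (by omega) (by omega)
        (by rw [p0]; simp only [nm]; omega) (by omega)⟩
    · exact ⟨6 * q + 2, 0, by norm_num, by omega, t_o2 (by omega) (by omega)
        (by rw [p0]; simp only [nm]; omega) (by omega)⟩
  · rcases hq with rfl | rfl | rfl | rfl
    · exact ⟨6 * q - 1, 2, by norm_num, by omega, t_e (by omega) (by omega)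
        (by rw [p1]; simp only [nm]; omega) (by omega)⟩
    · exact ⟨6 * q - 2, 0, by norm_num, by omega, t_o2 (by omega) (by omega)
        (by rw [p1]; simp only [nm]; omega) (by omega)⟩
    · exact ⟨6 * q + 2, 1, by norm_num, by omega, t_f (by omega) (by omega)
        (by rw [p1]; simp only [nm]; omega) (by omega)⟩
    · exact ⟨6 * q + 3, 0, by norm_num, by omega, t_o1 (by omega) (by omega)
        (by rw [p1]; simp only [nm]; omega) (by omega)⟩
  · rcases hq with rfl | rfl | rfl | rfl
    · exact ⟨6 * q + 1, 2, by norm_num, by omega, t_e (by omega) (by omega)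
        (by rw [p2]; simp only [nm]; omega) (by omega)⟩
    · exact ⟨6 * q, 0, by norm_num, by omega, t_o2 (by omega) (by omega)
        (by rw [p2]; simp only [nm]; omega) (by omega)⟩
    · exact ⟨6 * q + 4, 1, by norm_num, by omega, t_f (by omega) (by omega)
        (by rw [p2]; simp only [nm]; omega) (by omega)⟩
    · exact ⟨6 * q + 5, 0, by norm_num, by omega, t_o1 (by omega) (by omega)
        (by rw [p2]; simp only [nm]; omega) (by omega)⟩

theorem preN (G : ℕ) (hG : 8 ≤ G) (ks : List ℕ) : ∀ c, c < 3 → (∀ k ∈ ks, G ≤ k) → ∃ (js : List ℕ) (c' : ℕ), c' < 3 ∧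
    (∀ j ∈ js, G + 1 ≤ j) ∧ replicate (pend c) false ++ T c (code js) = code ks ++ replicate (pend c') false ∧
      (c + chi (code js)) % 3 = c' := by
  induction ks with
  | nil =>
    intro c hc _
    refine ⟨[], c, hc, by simp, by simp [code], ?_⟩
    simp only [code, chi_nil]
    omega
  | cons k ks ih =>
    intro c hc hg
    obtain ⟨j, c1, h1, h2, h3, h4⟩ := piece1 c k hc (hG.trans (hg k (by simp)))
    obtain ⟨js, c2, g1, g2, g3, g4⟩ := ih c1 h1 fun k' hk' => hg k' (by simp [hk'])
    have hk := hg k (by simp)
    have hm : (c + chi (code [j])) % 3 = c1 % 3 := by rw [h4]; omega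
    have ec : code (j :: js) = code [j] ++ code js := by
      rw [← code_append]
      rfl
    have ek : code (k :: ks) = code [k] ++ code ks := by
      rw [← code_append]
      rfl
    refine ⟨j :: js, c2, g1, ?_, ?_, ?_⟩
    · intro j' hj'
      rcases mem_cons.1 hj' with rfl | h
      · omega
      · exact g2 j' h
    · rw [ec, ek, T_append, T_congr (code js) hm, ← List.append_assoc, h3, List.append_assoc, g3,
        List.append_assoc]
    · rw [ec, chi_append]
      omega

end Pool.Agent.PR33
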