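import Pool.Agent.PR33.Defs

/-!
# [PR33-Tail] the last run (helper68)
-/

set_option autoImplicit false

namespace Pool.Agent.PR33

open Pool.Agent.PostTag Pool.Agent.PT33 List

private theorem nm_one (q r : ℕ) (hr : r < 3) : nm 1 (3 * q + r) = 2 * q + (r + 1) / 2 := by
  simp only [nm]
  omega

private theorem exists_jG (A N k m e b : ℕ) (hk : k % 2 = 1) (hk' : k ≤ 4 * A + 7)
    (hm : N + 8 * A + 16 ≤ m) (hs : m % 2 = 1 ↔ e % 3 = 1) :
    ∃ j d, N ≤ j ∧ (1 + j) % 3 = e % 3 ∧ (j % 2 = 1 ↔ b % 3 = 1) ∧ (d = 0 ∨ d = 4 * A + 6) ∧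
      k + d + nm 1 j = m := by
  obtain ⟨r, hr⟩ : ∃ r, r = (e + 2) % 3 := ⟨_, rfl⟩
  have hr3 : r < 3 := by omega
  obtain ⟨q, hq⟩ : ∃ q, m = k + 2 * q + (r + 1) / 2 := ⟨(m - k) / 2, by omega⟩
  have hq1 : 2 * A + 3 ≤ q := by omega
  obtain ⟨q', hq'⟩ : ∃ q', q = q' + (2 * A + 3) := ⟨q - (2 * A + 3), by omega⟩
  have hN : N ≤ 3 * q' := by omega
  have hmod : ∀ t, (1 + (3 * t + r)) % 3 = e % 3 := by
    intro t
    omega
  by_cases hp : ((3 * q + r) % 2 = 1 ↔ b % 3 = 1)
  · refine ⟨3 * q + r, 0, by omega, hmod q, hp, Or.inl rfl, ?_⟩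
    rw [nm_one q r hr3]
    omega
  · refine ⟨3 * q' + r, 4 * A + 6, by omega, hmod q', ?_, Or.inr rfl, ?_⟩
    · have hpar : (3 * q + r) % 2 = 1 ↔ ¬ (3 * q' + r) % 2 = 1 := by
        rw [hq']
        omega
      by_cases hb : b % 3 = 1
      · refine ⟨fun _ => hb, fun _ => ?_⟩
        by_contra h3
        exact hp ⟨fun _ => hb, fun _ => hpar.2 h3⟩
      · refine ⟨fun h4 => ?_, fun h4 => absurd h4 hb⟩
        exact absurd ⟨fun h5 => absurd h4 (hpar.1 h5), fun h5 => absurd h5 hb⟩ hp
    · rw [nm_one q' r hr3]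
      omega

theorem tailG (A N c m e b : ℕ) (hA : 1 ≤ A) (hc : c < 3) (hm : N + 8 * A + 16 ≤ m) (hs : m % 2 = 1 ↔ e % 3 = 1) :
    ∃ (js : List ℕ) (j : ℕ), N ≤ j ∧ (j % 2 = 1 ↔ b % 3 = 1) ∧ (∀ j ∈ js, 6 * A + 3 ≤ j) ∧
      replicate (pend c) false ++ T c (code js ++ replicate j false) = replicate m false ∧
        (c + chi (code js ++ replicate j false)) % 3 = e % 3 := by
  have e5 : chi [true] = 2 := rfl
  have e6 : ([false] : List Bool) = replicate 1 false := rfl
  obtain ⟨i, k, hi, hi2, hi3, hk, hk', hn⟩ : ∃ i k : ℕ, i % 2 = 1 ∧ 6 * A + 3 ≤ i ∧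
      (c + i) % 3 = 2 ∧ k % 2 = 1 ∧ k ≤ 4 * A + 7 ∧ pend c + (nm c i + 1) = k := by
    have h3 : c = 0 ∨ c = 1 ∨ c = 2 := by omega
    rcases h3 with rfl | rfl | rfl
    · refine ⟨6 * A + 5, 4 * A + 5, by omega, by omega, by omega, by omega, by omega, ?_⟩
      simp only [nm, pend]
      simp
      omega
    · refine ⟨6 * A + 7, 4 * A + 7, by omega, by omega, by omega, by omega, by omega, ?_⟩
      simp only [nm, pend]
      simp
      omega
    · refine ⟨6 * A + 3, 4 * A + 3, by omega, by omega, by omega, by omega, by omega, ?_⟩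
      simp only [nm, pend]
      simp
      omega
  obtain ⟨j, d, h1, h2, h3, h4, h5⟩ := exists_jG A N k m e b hk hk' hm hs
  have c1 : code [i] = replicate i false ++ [true] := by simp [code, run1, hi]
  have e4 : T (c + i) [true] = [false] := T_run2 hi3
  rcases h4 with rfl | rfl
  · refine ⟨[i], j, h1, h3, ?_, ?_, ?_⟩
    · intro j' hj'
      rw [mem_singleton] at hj'
      omega
    · have e7 : nm (c + i + 2) j = nm 1 j := by
        simp only [nm]
        have : (c + i + 2) % 3 = 1 := by omega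
        rw [this]
      rw [c1, List.append_assoc, T_gap, T_append, e4, e5, T_replicate, e7, e6, rep_add,
        ← List.replicate_add, ← List.replicate_add]
      congr 1
      omega
    · rw [c1, chi_append, chi_append, chi_replicate, chi_replicate, e5]
      omega
  · have c2 : code [i, 6 * A + 7] =
        replicate i false ++ ([true] ++ (replicate (6 * A + 7) false ++ [true])) := by
      have h7 : (6 * A + 7) % 2 = 1 := by omega
      simp [code, run1, hi, h7]
    refine ⟨[i, 6 * A + 7], j, h1, h3, ?_, ?_, ?_⟩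
    · intro j' hj'
      simp only [mem_cons, not_mem_nil, or_false] at hj'
      omega
    · have e7 : nm (c + i + 2 + (6 * A + 7) + 2) j = nm 1 j := by
        simp only [nm]
        have : (c + i + 2 + (6 * A + 7) + 2) % 3 = 1 := by omega
        rw [this]
      have e8 : nm (c + i + 2) (6 * A + 7) = 4 * A + 5 := by simp only [nm]; omega
      have e9 : T (c + i + 2 + (6 * A + 7)) [true] = [false] := T_run2 (by omega)
      rw [c2]
      simp only [List.append_assoc]
      rw [T_gap, T_append, e4, e5, T_gap, T_append, e8, e9, e5, T_replicate, e7, e6, rep_add,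
        rep_add, rep_add, rep_add, ← List.replicate_add]
      congr 1
      omega
    · rw [c2, chi_append, chi_append, chi_append, chi_append, chi_replicate, chi_replicate,
        chi_replicate, e5]
      omega

end Pool.Agent.PR33
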