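import Pool.Agent.PR33.Defs
import Pool.Agent.PR33.Piece
import Pool.Agent.PR33.Front
import Pool.Agent.PR33.Tail

/-!
# [PR33-Back] preimages of words with long gaps (helper68)
-/

set_option autoImplicit false

namespace Pool.Agent.PR33

open Pool.Agent.PostTag Pool.Agent.PT33 List

/-! ### Putting the pieces together -/

private theorem glue {s e n m i j c' : ℕ} {ks js0 js js2 : List ℕ}
    (a4 : T s (replicate i false ++ (true :: code js0)) = replicate n false ++ [true])
    (a5 : (s + chi (replicate i false ++ (true :: code js0))) % 3 = 0)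
    (b1 : replicate (pend 0) false ++ T 0 (code js) = code ks ++ replicate (pend c') false)
    (b2 : (0 + chi (code js)) % 3 = c')
    (c4 : replicate (pend c') false ++ T c' (code js2 ++ replicate j false) = replicate m false)
    (c5 : (c' + chi (code js2 ++ replicate j false)) % 3 = e % 3) :
    T s (replicate i false ++ (true :: (code (js0 ++ (js ++ js2)) ++ replicate j false))) =
      replicate n false ++ (true :: (code ks ++ replicate m false)) ∧
    (s + chi (replicate i false ++ (true :: (code (js0 ++ (js ++ js2)) ++ replicate j false)))) % 3 =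
      e % 3 := by
  have ew : replicate i false ++ (true :: (code (js0 ++ (js ++ js2)) ++ replicate j false)) =
      (replicate i false ++ (true :: code js0)) ++ (code js ++ (code js2 ++ replicate j false)) := by
    rw [code_append, code_append]
    simp only [List.append_assoc, List.cons_append]
  have p0 : pend 0 = 0 := by simp [pend]
  rw [p0, replicate_zero, nil_append] at b1
  have p1 : (s + chi (replicate i false ++ (true :: code js0))) % 3 = 0 % 3 := by rw [a5]
  have p2 : (s + chi (replicate i false ++ (true :: code js0)) + chi (code js)) % 3 = c' % 3 := by omega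
  constructor
  · rw [ew, T_append (replicate i false ++ (true :: code js0)), T_append (code js), a4,
      T_congr (code js) p1, b1, T_congr (code js2 ++ replicate j false) p2]
    simp only [List.append_assoc, List.cons_append, List.nil_append]
    rw [c4]
  · rw [ew, chi_append (replicate i false ++ (true :: code js0)), chi_append (code js)]
    omega

/-! ### The short form -/

private theorem exists_j8 (c m e b : ℕ) (hc : c % 2 = 1) (hc' : c ≤ 11) (hm : 72 ≤ m)
    (hs : m % 2 = 1 ↔ e % 3 = 1) :
    ∃ j d, m + 1 ≤ j ∧ (1 + j) % 3 = e % 3 ∧ (j % 2 = 1 ↔ b % 3 = 1) ∧ (d = 0 ∨ d = 10) ∧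
      c + d + nm 1 j = m := by
  obtain ⟨r, hr⟩ : ∃ r, r = (e + 2) % 3 := ⟨_, rfl⟩
  obtain ⟨c2, hc2⟩ : ∃ c2, c = 2 * c2 + 1 := ⟨c / 2, by omega⟩
  by_cases hp : ((3 * ((m - c) / 2) + r) % 2 = 1 ↔ b % 3 = 1)
  · refine ⟨3 * ((m - c) / 2) + r, 0, by omega, by omega, hp, Or.inl rfl, ?_⟩
    simp only [nm]
    omega
  · refine ⟨3 * ((m - c - 10) / 2) + r, 10, by omega, by omega, ?_, Or.inr rfl, ?_⟩
    · have h1 : (m - c) / 2 = (m - c - 10) / 2 + 5 := by omega
      rw [h1] at hp
      constructor
      · intro h2
        by_contra h3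
        exact hp ⟨fun h4 => by omega, fun h4 => absurd h4 h3⟩
      · intro h2
        by_contra h3
        exact hp ⟨fun _ => h2, fun _ => by omega⟩
    · simp only [nm]
      omega

private theorem tail8 (c m e b : ℕ) (hc : c < 3) (hm : 72 ≤ m) (hs : m % 2 = 1 ↔ e % 3 = 1) :
    ∃ (js : List ℕ) (j : ℕ), m + 1 ≤ j ∧ (j % 2 = 1 ↔ b % 3 = 1) ∧ (∀ j ∈ js, 8 ≤ j) ∧
      replicate (pend c) false ++ T c (code js ++ replicate j false) = replicate m false ∧
        (c + chi (code js ++ replicate j false)) % 3 = e % 3 := by
  have e5 : chi [true] = 2 := rfl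
  have e6 : ([false] : List Bool) = replicate 1 false := rfl
  obtain ⟨i, k, hi, hi2, hi3, hk, hk', hn⟩ : ∃ i k : ℕ, i % 2 = 1 ∧ 8 ≤ i ∧ (c + i) % 3 = 2 ∧
      k % 2 = 1 ∧ k ≤ 11 ∧ pend c + (nm c i + 1) = k := by
    have h3 : c = 0 ∨ c = 1 ∨ c = 2 := by omega
    rcases h3 with rfl | rfl | rfl
    · exact ⟨11, 9, by norm_num, by norm_num, by norm_num, by norm_num, by norm_num,
        by simp [nm, pend]⟩
    · exact ⟨13, 11, by norm_num, by norm_num, by norm_num, by norm_num, by norm_num,
        by simp [nm, pend]⟩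
    · exact ⟨9, 7, by norm_num, by norm_num, by norm_num, by norm_num, by norm_num,
        by simp [nm, pend]⟩
  obtain ⟨j, d, h1, h2, h3, h4, h5⟩ := exists_j8 k m e b hk hk' hm hs
  have c1 : code [i] = replicate i false ++ [true] := by simp [code, run1, hi]
  have e4 : T (c + i) [true] = [false] := T_run2 hi3
  rcases h4 with rfl | rfl
  · refine ⟨[i], j, h1, h3, ?_, ?_, ?_⟩
    · intro j' hj'
      rw [mem_singleton] at hj'
      omega
    · have e7 : nm (c + i + 2) j = nm 1 j := by
        simp only [nm]
        have : (c + i + 2) % 3 = 1 := by omega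
        rw [this]
      rw [c1, List.append_assoc, T_gap, T_append, e4, e5, T_replicate, e7, e6, rep_add,
        ← List.replicate_add, ← List.replicate_add]
      congr 1
      omega
    · rw [c1, chi_append, chi_append, chi_replicate, chi_replicate, e5]
      omega
  · have c2 : code [i, 13] = replicate i false ++ ([true] ++ (replicate 13 false ++ [true])) := by
      simp [code, run1, hi]
    refine ⟨[i, 13], j, h1, h3, ?_, ?_, ?_⟩
    · intro j' hj'
      simp only [mem_cons, not_mem_nil, or_false] at hj'
      omega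
    · have e7 : nm (c + i + 2 + 13 + 2) j = nm 1 j := by
        simp only [nm]
        have : (c + i + 2 + 13 + 2) % 3 = 1 := by omega
        rw [this]
      have e8 : nm (c + i + 2) 13 = 9 := by simp only [nm]; omega
      have e9 : T (c + i + 2 + 13) [true] = [false] := T_run2 (by omega)
      rw [c2]
      simp only [List.append_assoc]
      rw [T_gap, T_append, e4, e5, T_gap, T_append, e8, e9, e5, T_replicate, e7, e6, rep_add,
        rep_add, rep_add, rep_add, ← List.replicate_add]
      congr 1
      omega
    · rw [c2, chi_append, chi_append, chi_append, chi_append, chi_replicate, chi_replicate,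
        chi_replicate, e5]
      omega

theorem backS (N s e : ℕ) (w' : List Bool) (hN : 72 ≤ N) (h : LAdm N 8 s e w') (s' e' : ℕ) : ∃ w, T s w = w' ∧
    (s + chi w) % 3 = e % 3 ∧ LAdm (N + 1) 8 s' e' w := by
  obtain ⟨n, ks, m, rfl, hn, hm, hg, hs, he⟩ := h
  obtain ⟨i, j0, a1, a2, a3, a4, a5⟩ := front s n (if s' % 3 = 1 then 0 else 1) (by omega) hs
  obtain ⟨js, c', b0, bg, b1, b2⟩ := preN 8 le_rfl ks 0 (by norm_num) hg
  obtain ⟨js2, j, c1, c2, c3, c4, c5⟩ := tail8 c' m e e' b0 (by omega) he
  obtain ⟨g1, g2⟩ := glue a4 a5 b1 b2 c4 c5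
  refine ⟨_, g1, g2, i, [j0] ++ (js ++ js2), j, rfl, by omega, by omega, ?_, ?_, c2⟩
  · intro k hk
    simp only [mem_append, mem_singleton] at hk
    rcases hk with h | h | h
    · omega
    · have := bg k h
      omega
    · exact c3 k h
  · by_cases h : s' % 3 = 1
    · rw [if_pos h] at a2
      constructor
      · intro h1
        omega
      · intro h1
        exact absurd h h1
    · rw [if_neg h] at a2
      exact ⟨fun _ => h, fun _ => by omega⟩

/-! ### The long form -/

private theorem len_T (w : List Bool) : ∀ s : ℕ,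
    3 * (T s w).length + s % 3 = 2 * chi w + (s + chi w) % 3 := by
  induction w with
  | nil => intro s; simp
  | cons x w ih =>
    intro s
    have h := ih (s + wt x)
    have h3 : s % 3 = 0 ∨ s % 3 = 1 ∨ s % 3 = 2 := by omega
    simp only [T, length_append, chi_cons]
    rcases h3 with h3 | h3 | h3 <;> cases x <;> simp [out, h3, wt] at h ⊢ <;> omega

private theorem chi_eq (w : List Bool) : chi w = w.length + w.count true := by
  induction w with
  | nil => rfl
  | cons x w ih =>
    cases x
    · simp [chi_cons, ih, wt]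
      omega
    · simp [chi_cons, ih, wt]
      omega

private theorem code_even (ks : List ℕ) : (code ks).length % 2 = 0 := by
  induction ks with
  | nil => rfl
  | cons k ks ih =>
    simp only [code, length_append, length_replicate, run1]
    by_cases h : k % 2 = 1
    · rw [if_pos h]
      simp
      omega
    · rw [if_neg h]
      simp
      omega

theorem backL (E : ℕ) (hE : 0 < E) (G : ℕ) (hG : 8 ≤ G) (N : ℕ) : ∃ N', ∀ (s e : ℕ) (w' : List Bool), LAdm N' G s e w' →
    ∀ s' e' l : ℕ, l % 2 = (s' % 3 + e' % 3) % 2 → ∃ w, T s w = w' ∧ (s + chi w) % 3 = e % 3 ∧ LAdm N (G + 1) s' e' w ∧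
      w.length % (2 * E) = l % (2 * E) := by
  refine ⟨N + (2 * E + 1) * (4 * (G + 1) + 6) + 8 + (8 * (G + 1) + 16), ?_⟩
  rintro s e w' ⟨n, ks, m, rfl, hn, hm, hg, hs, he⟩ s' e' l hl
  obtain ⟨js, c', b0, bg, b1, b2⟩ := preN G hG ks 0 (by norm_num) hg
  obtain ⟨js2, j, c1, c2, c3, c4, c5⟩ := tailG (G + 1) N c' m e e' (by omega) b0 (by omega) he
  -- one preimage for every `x ≤ E`
  have key : ∀ x ≤ E, ∃ (w : List Bool) (ε : ℕ), ε ≤ 1 ∧
      T s w = replicate n false ++ (true :: (code ks ++ replicate m false)) ∧
      (s + chi w) % 3 = e % 3 ∧ LAdm N (G + 1) s' e' w ∧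
      w.length % 2 = l % 2 ∧
      w.count true = 1 + (2 * x + 1 + ε) + (code js).count true + (code js2).count true := by
    intro x hx
    have hnx : N + (2 * x + 1) * (4 * (G + 1) + 6) + 8 ≤ n := by
      have : (2 * x + 1) * (4 * (G + 1) + 6) ≤ (2 * E + 1) * (4 * (G + 1) + 6) :=
        Nat.mul_le_mul_right _ (by omega)
      omega
    obtain ⟨i, ε, js0, a0, a1, a2, a3, a4, a5, a6⟩ :=
      frontG (G + 1) x N s n (if s' % 3 = 1 then 0 else 1) (by omega) hnx hs
    obtain ⟨g1, g2⟩ := glue a4 a5 b1 b2 c4 c5
    have hi : i % 2 = 1 ↔ s' % 3 ≠ 1 := by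
      by_cases h : s' % 3 = 1
      · rw [if_pos h] at a2
        constructor
        · intro h1
          omega
        · intro h1
          exact absurd h h1
      · rw [if_neg h] at a2
        exact ⟨fun _ => h, fun _ => by omega⟩
    refine ⟨_, ε, a0, g1, g2, ⟨i, js0 ++ (js ++ js2), j, rfl, a1, c1, ?_, hi, c2⟩, ?_, ?_⟩
    · intro k hk
      simp only [mem_append] at hk
      rcases hk with h | h | h
      · have := a3 k h
        omega
      · exact bg k h
      · have := c3 k h
        omega
    · have h1 := code_even (js0 ++ (js ++ js2))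
      simp only [length_append, length_cons, length_replicate]
      have h2 : s' % 3 = 0 ∨ s' % 3 = 1 ∨ s' % 3 = 2 := by omega
      have h3 : e' % 3 = 0 ∨ e' % 3 = 1 ∨ e' % 3 = 2 := by omega
      rcases h2 with h2 | h2 | h2 <;> rcases h3 with h3 | h3 | h3 <;>
        simp [h2] at hi <;> simp [h3] at c2 <;> omega
    · have h0 : ∀ q : ℕ, count true (replicate q false) = 0 := by
        intro q
        rw [count_replicate]
        simp
      rw [code_append, code_append, count_append, count_cons, count_append, count_append,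
        count_append, h0, h0, a6]
      simp
      omega
  -- the number of letters
  have hlen : ∀ w : List Bool,
      T s w = replicate n false ++ (true :: (code ks ++ replicate m false)) →
      (s + chi w) % 3 = e % 3 →
      2 * (w.length + w.count true) + e % 3 =
        3 * (replicate n false ++ (true :: (code ks ++ replicate m false))).length + s % 3 := by
    intro w h1 h2
    have h3 := len_T w s
    rw [h1, h2, chi_eq] at h3
    omega
  obtain ⟨w0, ε0, k1, k2, k3, k4, k5, k6⟩ := key 0 (Nat.zero_le _)
  have hl0 := hlen w0 k2 k3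
  -- the choice of `x`
  obtain ⟨y, hy⟩ : ∃ y, w0.length + 2 * E * l = l + 2 * y := by
    refine ⟨(w0.length + 2 * E * l - l) / 2, ?_⟩
    have h1 : l ≤ 2 * E * l := by
      have : 1 * l ≤ (2 * E) * l := Nat.mul_le_mul_right _ (by omega)
      omega
    have h2 : (2 * E * l) % 2 = 0 := by
      rw [Nat.mul_assoc]
      exact Nat.mul_mod_right 2 _
    omega
  obtain ⟨w, ε, m1, m2, m3, m4, m5, m6⟩ := key (y % E) (Nat.mod_lt y hE).le
  refine ⟨w, m2, m3, m4, ?_⟩
  have hl1 := hlen w m2 m3
  have h1 : w0.length = w.length + 2 * (y % E) := by omega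
  have h2 : y = E * (y / E) + y % E := (Nat.div_add_mod y E).symm
  have h3 : w.length + 2 * E * l = l + 2 * E * (y / E) := by
    have h4 : 2 * E * (y / E) = 2 * (E * (y / E)) := by ring
    omega
  have h5 : (w.length + 2 * E * l) % (2 * E) = w.length % (2 * E) := Nat.add_mul_mod_self_left _ _ _
  have h6 : (l + 2 * E * (y / E)) % (2 * E) = l % (2 * E) := Nat.add_mul_mod_self_left _ _ _
  rw [← h5, h3, h6]

end Pool.Agent.PR33
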