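import Pool.Agent.PR33.Fill2

/-!
# [PR33-Ctx] the statement for arbitrary binary words as contexts (helper33)
-/

set_option autoImplicit false

namespace Pool.Agent.PR33

open Pool.Agent.PostTag Pool.Agent.PT33 List

/-- all contexts `u`, `v` can be completed by words of one class -/
theorem dcontext (P : ℕ) (hP : 0 < P) (u v : List Bool) : ∃ D C ν μ : ℕ, P ∣ D ∧ P ∣ C ∧ ∀ z, Seed z → ∀ N : ℕ,
    ∃ w, DAdm D C N ν μ 0 w ∧ Rch z (u ++ dec w ++ v) := by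
  obtain ⟨b, E1, hE1, hPE⟩ := Nat.exists_eq_pow_mul_and_not_dvd hP.ne' 3 (by norm_num)
  have hE1p : 0 < E1 := Nat.pos_of_ne_zero (by rintro rfl; exact hE1 (dvd_zero 3))
  have hE3 : E1 % 3 ≠ 0 := fun h => hE1 (Nat.dvd_of_mod_eq_zero h)
  obtain ⟨E, hE⟩ : ∃ E, E = 2 * E1 := ⟨_, rfl⟩
  have h0 : 0 < E := by omega
  have h2 : E % 2 = 0 := by omega
  have h3 : E % 3 ≠ 0 := by omega
  obtain ⟨Ru, hRu⟩ : ∃ Ru, Ru = R 0 u := ⟨_, rfl⟩
  obtain ⟨Rv, hRv⟩ : ∃ Rv, Rv = R 0 v := ⟨_, rfl⟩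
  obtain ⟨g, hg⟩ : ∃ g, g = 0 + 2 * v.length := ⟨_, rfl⟩
  obtain ⟨s0, hs0⟩ : ∃ s0, s0 = 2 * u.length := ⟨_, rfl⟩
  obtain ⟨s1, hs1⟩ : ∃ s1, s1 = g + chi Ru := ⟨_, rfl⟩
  obtain ⟨x1, hx1⟩ : ∃ x1 : ℕ, x1 % 2 = 1 ↔ s0 % 3 ≠ 1 := by
    by_cases h : s0 % 3 = 1
    · exact ⟨0, by simp [h]⟩
    · exact ⟨1, by simp [h]⟩
  obtain ⟨x2, hx2, hx3⟩ := solve (2 * E) s1 x1 (by omega) (by omega)
  obtain ⟨ν2, μ2, hν2, hμ2, hz⟩ := tfill b (4 * E) P (by omega) (by omega) (by omega) hP (Rv ++ T g Ru) 0 x2 0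
  have hνp : ν2 % 2 = 1 ↔ s1 % 3 ≠ 1 := by
    have : ν2 % 2 = x2 % 2 := by
      have h5 : 2 ∣ 4 * E := ⟨2 * E, by ring⟩
      rw [← Nat.mod_mod_of_dvd ν2 h5, hν2, Nat.mod_mod_of_dvd _ h5]
    rw [this]
    exact hx2
  obtain ⟨t, ht⟩ : ∃ t, μ2 = 4 * E * t := by
    have h5 : 4 * E ∣ μ2 := Nat.dvd_of_mod_eq_zero (by rw [hμ2, Nat.zero_mod])
    exact h5
  have hμp : μ2 % 2 = 0 := by
    have : μ2 = 2 * (2 * E * t) := by rw [ht]; ring
    omega
  have hμp2 : (3 * μ2 / 2) % 2 = 0 := by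
    have : 3 * μ2 = 2 * (2 * (3 * E * t)) := by rw [ht]; ring
    omega
  have hν1p : up s1 ν2 % 2 = 1 ↔ s0 % 3 ≠ 1 := by
    have h5 := up_congr (2 * E) s1 ν2 x2 hνp (by
      have : 2 * (2 * E) = 4 * E := by ring
      rw [this]
      exact hν2)
    have h6 : 2 * E ∣ 3 * (2 * E) := ⟨3, by ring⟩
    have h7 : 2 ∣ 2 * E := ⟨E, rfl⟩
    have h8 : up s1 ν2 % (2 * E) = x1 % (2 * E) := by
      rw [← Nat.mod_mod_of_dvd _ h6, h5, Nat.mod_mod_of_dvd _ h6, hx3]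
    have h9 : up s1 ν2 % 2 = x1 % 2 := by
      rw [← Nat.mod_mod_of_dvd _ h7, h8, Nat.mod_mod_of_dvd _ h7]
    rw [h9]
    exact hx1
  refine ⟨3 * (3 ^ (b + 1) * E), 2 ^ b * (4 * E) * P, up s0 (up s1 ν2), 3 * (3 * μ2 / 2) / 2, ?_, ?_, fun z hs N => ?_⟩
  · rw [hPE, hE]
    exact ⟨3 * 3 * 2, by ring⟩
  · exact ⟨2 ^ b * (4 * E), by ring⟩
  · obtain ⟨w2, h1, h4⟩ := hz z hs (max N 8) 0
    have e1 : 3 ^ b * (4 * E) = 2 * (3 ^ b * (2 * E)) := by ring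
    rw [e1] at h1
    obtain ⟨w1, g1, g2, g3⟩ := triv (3 ^ b * (2 * E)) _ (max N 8) s1 w2 ν2 μ2 0 (by positivity)
      (by rw [show 3 ^ b * (2 * E) = 2 * (3 ^ b * E) by ring]; omega) h1 hνp hμp
    have e2 : 3 * (3 ^ b * (2 * E)) = 2 * (3 ^ (b + 1) * E) := by ring
    rw [e2] at g3
    obtain ⟨w0, k1, k2, k3⟩ := triv (3 ^ (b + 1) * E) _ (max N 8) s0 w1 _ _ 0 (by positivity)
      (by rw [Nat.mul_mod, h2]; simp) g3 hν1p hμp2
    refine ⟨w0, k3.mono (le_max_left _ _), ?_⟩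
    have h8 : 8 ≤ max N 8 := le_max_right _ _
    have s1' : Rch z ((u ++ (dec w0 ++ v)).drop (0 % 3)) := by
      apply raw u 0 (dec w0 ++ v)
      · rw [List.length_append]
        have := long_of (k3.six h8)
        omega
      · rw [List.append_assoc, ← hRu, Nat.zero_add, ← hs0]
        apply partL _ _ (k3.six h8)
        rw [k1, k2, List.append_assoc]
        apply raw v 0 (dec Ru ++ dec w1)
        · rw [List.length_append]
          have := long_of (g3.six h8)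
          omega
        · rw [← hRv, ← hg, List.append_assoc]
          apply part Ru g (dec w1 ++ dec Rv)
          · rw [List.length_append]
            have := long_of (g3.six h8)
            omega
          · rw [List.append_assoc, ← hs1]
            apply partL _ _ (g3.six h8)
            rw [g1, g2, ← dec_append, ← dec_append]
            exact h4
    rw [List.append_assoc]
    simpa using s1'

/-- the classes of a homomorphism to a finite monoid -/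
theorem mcontext {M : Type} [Monoid M] [Finite M] (f : List Bool → M) (h1 : f [] = 1) (hf : ∀ x y, f (x ++ y) = f x * f y)
    (u v : List Bool) (z0 : List Bool) (hz0 : Seed z0) : ∃ g : M, ∀ z, Seed z → ∀ L : ℕ, ∃ w, f w = g ∧ L ≤ w.length ∧
      Rch z (u ++ w ++ v) := by
  obtain ⟨P, N, hP, hc⟩ := mon_const f h1 hf
  obtain ⟨D, C, ν, μ, hD, hC, hz⟩ := dcontext P hP u v
  obtain ⟨w0, hw0, _⟩ := hz z0 hz0 N
  refine ⟨f (dec w0), fun z hs L => ?_⟩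
  obtain ⟨w, h2, h3⟩ := hz z hs (max N L)
  refine ⟨dec w, hc D C ν μ 0 w w0 hD hC (h2.mono (le_max_left _ _)) hw0, ?_, h3⟩
  obtain ⟨n, ks, m, rfl, hn, _⟩ := h2
  rw [dec_append, List.length_append, dec_replicate_false, List.length_replicate]
  have := (le_max_right N L).trans hn
  omega

end Pool.Agent.PR33
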