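import Pool.Agent.PR33.Filler

/-!
# [PR33-DEnds] the first and the last run, all gaps one modulo a number (helper96)
-/

set_option autoImplicit false

namespace Pool.Agent.PR33

open Pool.Agent.PostTag Pool.Agent.PT33 List

private theorem crt3 (D : ℕ) (h0 : 0 < D) (h3 : D % 3 ≠ 0) (a b N : ℕ) : ∃ x, N ≤ x ∧
    x ≤ D + D * (3 + 3 * N) ∧ x % D = b % D ∧ x % 3 = a % 3 := by
  obtain ⟨c, hc⟩ : ∃ c, c = b % D := ⟨_, rfl⟩
  have hcD : c < D := by rw [hc]; exact Nat.mod_lt _ h0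
  have key : ∃ k, k < 3 ∧ (c + D * (k + 3 * N)) % 3 = a % 3 := by
    have h : D % 3 = 1 ∨ D % 3 = 2 := by omega
    rcases h with h | h
    · refine ⟨(a + 2 * c) % 3, Nat.mod_lt _ (by norm_num), ?_⟩
      obtain ⟨d, hd⟩ : ∃ d, D = 3 * d + 1 := ⟨D / 3, by omega⟩
      obtain ⟨k, hk⟩ : ∃ k, k = (a + 2 * c) % 3 := ⟨_, rfl⟩
      rw [← hk, hd]
      obtain ⟨w, hw⟩ : ∃ w, w = d * (k + 3 * N) := ⟨_, rfl⟩
      have e : (3 * d + 1) * (k + 3 * N) = 3 * w + k + 3 * N := by rw [hw]; ring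
      rw [e]
      omega
    · refine ⟨(2 * a + c) % 3, Nat.mod_lt _ (by norm_num), ?_⟩
      obtain ⟨d, hd⟩ : ∃ d, D = 3 * d + 2 := ⟨D / 3, by omega⟩
      obtain ⟨k, hk⟩ : ∃ k, k = (2 * a + c) % 3 := ⟨_, rfl⟩
      rw [← hk, hd]
      obtain ⟨w, hw⟩ : ∃ w, w = d * (k + 3 * N) := ⟨_, rfl⟩
      have e : (3 * d + 2) * (k + 3 * N) = 3 * w + 2 * k + 6 * N := by rw [hw]; ring
      rw [e]
      omega
  obtain ⟨k, hk3, hk⟩ := key
  refine ⟨c + D * (k + 3 * N), ?_, ?_, ?_, hk⟩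
  · have h1 : 1 * (k + 3 * N) ≤ D * (k + 3 * N) := Nat.mul_le_mul_right _ h0
    omega
  · have h1 : D * (k + 3 * N) ≤ D * (3 + 3 * N) := Nat.mul_le_mul_left _ (by omega)
    omega
  · rw [Nat.add_mul_mod_self_left, hc, Nat.mod_mod]

theorem frontD (D F N : ℕ) (hD : D % 2 = 0) (h0 : 0 < D) (h3 : D % 3 ≠ 0) (hF : 0 < F) : ∃ K, ∀ n s ν : ℕ, K ≤ n →
    (n % 2 = 1 ↔ s % 3 ≠ 1) → ∃ i r0 : ℕ, N ≤ i ∧ i % D = ν % D ∧ ∀ r : ℕ, r % D = r0 % D → ∃ js : List ℕ, N ≤ js.length ∧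
      (∀ j ∈ js, N ≤ j ∧ j % 2 = 1 ∧ j % D = 1 % D) ∧
        T s (replicate i false ++ (true :: code js)) = replicate n false ++ [true] ∧
          (s + chi (replicate i false ++ (true :: code js))) % 3 = 0 ∧ js.length % (D * F) = r % (D * F) := by
  obtain ⟨Z, hZ⟩ := filler D F N hD h0 hF
  -- the last gap
  obtain ⟨j, hj1, -, hj3, hj4⟩ := crt3 D h0 h3 0 1 N
  have hjodd : j % 2 = 1 := by
    have h1 : j % D % 2 = j % 2 := Nat.mod_mod_of_dvd j (Nat.dvd_of_mod_eq_zero hD)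
    rw [hj3] at h1
    have h2 : 1 % D % 2 = 1 % 2 := Nat.mod_mod_of_dvd 1 (Nat.dvd_of_mod_eq_zero hD)
    omega
  obtain ⟨u, hu⟩ : ∃ u, j = 3 * u := ⟨j / 3, by omega⟩
  obtain ⟨B, hB⟩ : ∃ B, B = D + D * (3 + 3 * (N + 3)) := ⟨_, rfl⟩
  refine ⟨2 * (Z + u + B + 5), fun n s ν hn hs => ?_⟩
  -- the first run
  obtain ⟨i, hi1, hi2, hi3, hi4⟩ := crt3 D h0 h3 (5 - s % 3) ν (N + 3)
  rw [← hB] at hi2
  have hs3 : s % 3 < 3 := Nat.mod_lt _ (by norm_num)
  obtain ⟨q, hq⟩ : ∃ q, i = 3 * q + (2 - s % 3) := ⟨(i - (2 - s % 3)) / 3, by omega⟩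
  obtain ⟨z, hz⟩ : ∃ z, 2 * z + (2 * q + 2 * u + 3 - s % 3) = n :=
    ⟨(n - (2 * q + 2 * u + 3 - s % 3)) / 2, by omega⟩
  have hnm : nm s i = 2 * q + 2 - s % 3 := by
    simp only [nm]
    omega
  have hnmj : nm 1 j = 2 * u := by
    simp only [nm]
    omega
  have hsi : (s + i) % 3 = 2 := by omega
  refine ⟨i, z + 1, by omega, hi3, fun r hr => ?_⟩
  obtain ⟨fl, f1, f2, f3, f4, f5⟩ := hZ z (r + D * F - 1) (by omega) (by
    have hDF : 0 < D * F := Nat.mul_pos h0 hF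
    have e1 : (r + D * F - 1 + 1) % D = (z + 1) % D := by
      have : r + D * F - 1 + 1 = r + D * F := by omega
      rw [this, Nat.add_mul_mod_self_left, hr]
    exact Nat.ModEq.add_right_cancel' 1 e1)
  have ec : code (fl ++ [j]) = code fl ++ (replicate j false ++ [true]) := by
    rw [code_append]
    simp [code, run1, hjodd]
  have e4 : T (s + i) [true] = [false] := T_run2 hsi
  have e5 : chi [true] = 2 := rfl
  have e6 : ([false] : List Bool) = replicate 1 false := rfl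
  have ew : true :: code (fl ++ [j]) = [true] ++ (code fl ++ (replicate j false ++ [true])) := by
    rw [ec]; rfl
  refine ⟨fl ++ [j], ?_, ?_, ?_, ?_, ?_⟩
  · rw [List.length_append]; omega
  · intro x hx
    rw [List.mem_append, List.mem_singleton] at hx
    rcases hx with hx | rfl
    · exact f2 x hx
    · exact ⟨hj1, hjodd, hj3⟩
  · have p1 : (s + i + 2) % 3 = 1 % 3 := by omega
    have p2 : (s + i + 2 + chi (code fl)) % 3 = 1 % 3 := by omega
    have p3 : (1 + j) % 3 = 1 := by omega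
    rw [ew, T_gap, T_append, e4, e5, T_append, T_congr (code fl) p1, f3,
      T_congr (replicate j false ++ [true]) p2, T_gap, T_run1 p3, hnm, hnmj, e6, rep_add, rep_add,
      rep_add]
    congr 2
    omega
  · rw [ew, chi_append, chi_append, chi_append, chi_append, chi_replicate, chi_replicate, e5]
    omega
  · rw [List.length_append]
    have hDF : 0 < D * F := Nat.mul_pos h0 hF
    have e1 : (fl.length + 1) % (D * F) = (r + D * F - 1 + 1) % (D * F) := by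
      rw [Nat.add_mod, f5, ← Nat.add_mod]
    have e2 : r + D * F - 1 + 1 = r + D * F := by omega
    rw [e2, Nat.add_mod_right] at e1
    exact e1

theorem tailD (D N : ℕ) (hD : D % 2 = 0) (h0 : 0 < D) (h3 : D % 3 ≠ 0) : ∃ K, ∀ m c e μ : ℕ, K ≤ m → (c = 0 ∨ c = 2) →
    (m % 2 = 1 ↔ e % 3 = 1) → ∃ (js : List ℕ) (j : ℕ), N ≤ j ∧ j % D = μ % D ∧
      (∀ j ∈ js, N ≤ j ∧ j % 2 = 1 ∧ j % D = 1 % D) ∧ T c (code js ++ replicate j false) = replicate m false ∧
        (c + chi (code js ++ replicate j false)) % 3 = e % 3 := by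
  obtain ⟨Z, hZ⟩ := filler D 1 N hD h0 one_pos
  obtain ⟨B, hB⟩ : ∃ B, B = D + D * (3 + 3 * (N + 3)) := ⟨_, rfl⟩
  refine ⟨2 * (Z + 2 * B + 5), fun m c e μ hm hc he => ?_⟩
  -- the first gap
  obtain ⟨g, hg1, hg2, hg3, hg4⟩ := crt3 D h0 h3 (2 - c) 1 (N + 3)
  rw [← hB] at hg2
  have hgodd : g % 2 = 1 := by
    have h1 : g % D % 2 = g % 2 := Nat.mod_mod_of_dvd g (Nat.dvd_of_mod_eq_zero hD)
    rw [hg3] at h1
    have h2 : 1 % D % 2 = 1 % 2 := Nat.mod_mod_of_dvd 1 (Nat.dvd_of_mod_eq_zero hD)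
    omega
  -- the last run
  obtain ⟨j, hj1, hj2, hj3, hj4⟩ := crt3 D h0 h3 (e + 2) μ (N + 3)
  rw [← hB] at hj2
  have hcg : (c + g) % 3 = 2 := by omega
  obtain ⟨z, hz⟩ : ∃ z, nm c g + 1 + (2 * z + nm 1 j) = m := by
    refine ⟨(m - (nm c g + 1 + nm 1 j)) / 2, ?_⟩
    have h1 : nm c g ≤ g := by simp only [nm]; omega
    have h2 : nm 1 j ≤ j := by simp only [nm]; omega
    have h4 : (nm c g) % 2 = 0 := by
      simp only [nm]
      omega
    have h5 : (nm 1 j) % 2 = 0 ↔ e % 3 = 1 := by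
      simp only [nm]
      omega
    omega
  have hzZ : Z ≤ z := by
    have h1 : nm c g ≤ g := by simp only [nm]; omega
    have h2 : nm 1 j ≤ j := by simp only [nm]; omega
    omega
  obtain ⟨fl, f1, f2, f3, f4, f5⟩ := hZ z z hzZ rfl
  have e4 : T (c + g) [true] = [false] := T_run2 hcg
  have e5 : chi [true] = 2 := rfl
  have e6 : ([false] : List Bool) = replicate 1 false := rfl
  have ew : code (g :: fl) ++ replicate j false =
      replicate g false ++ ([true] ++ (code fl ++ replicate j false)) := by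
    simp [code, run1, hgodd]
  refine ⟨g :: fl, j, by omega, hj3, ?_, ?_, ?_⟩
  · intro x hx
    rw [List.mem_cons] at hx
    rcases hx with rfl | hx
    · exact ⟨by omega, hgodd, hg3⟩
    · exact f2 x hx
  · have p1 : (c + g + 2) % 3 = 1 % 3 := by omega
    have p2 : (c + g + 2 + chi (code fl)) % 3 = 1 % 3 := by omega
    rw [ew, T_gap, T_append, e4, e5, T_append, T_congr (code fl) p1, f3,
      T_congr (replicate j false) p2, T_replicate, e6, ← List.replicate_add, ← List.replicate_add,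
      ← List.replicate_add]
    congr 1
    omega
  · rw [ew, chi_append, chi_append, chi_append, chi_replicate, chi_replicate, e5]
    omega

end Pool.Agent.PR33
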