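import Pool.Agent.PR33.DList
import Pool.Agent.PR33.DEnds

/-!
# [PR33-DForm] words with long gaps have preimages whose gaps are one modulo a number (helper77)

`length_T`: the exact length of the image of a word under one pass. `dform`: every word with long gaps is the image of a word whose
gaps are odd, long and `1` modulo `E`, with prescribed lengths of the first and the last run modulo `E` and a prescribed number of gaps
modulo `E * F`, as soon as the length of the given word fits.
-/

set_option autoImplicit false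

namespace Pool.Agent.PR33

open Pool.Agent.PostTag Pool.Agent.PT33 List

theorem length_T (w : List Bool) (s : ℕ) : 3 * (T s w).length + s % 3 = 2 * chi w + (s + chi w) % 3 := by
  induction w generalizing s with
  | nil => simp
  | cons x w ih =>
    have h1 := ih (s + wt x)
    have h2 : 3 * (out s x).length + s % 3 = 2 * wt x + (s + wt x) % 3 := by
      have hp : s % 3 = 0 ∨ s % 3 = 1 ∨ s % 3 = 2 := by omega
      rcases hp with hp | hp | hp <;> cases x <;> simp [out, wt, hp] <;> omega
    rw [T_cons, List.length_append, chi_cons, ← add_assoc]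
    omega

/-- the weight of a code whose gaps are odd and `1` modulo `E` -/
theorem chi_gaps (E : ℕ) (js : List ℕ) (h : ∀ j ∈ js, j % 2 = 1 ∧ j % E = 1 % E) :
    chi (code js) ≡ 3 * js.length [MOD E] := by
  induction js with
  | nil => exact Nat.ModEq.refl _
  | cons j js ih =>
    obtain ⟨h1, h2⟩ := h j (by simp)
    have h3 := ih fun k hk => h k (by simp [hk])
    have h4 : j ≡ 1 [MOD E] := h2
    have e1 : chi (code (j :: js)) = (j + 2) + chi (code js) := by
      simp only [code, run1, h1, if_true, chi_append, chi_replicate, chi_cons, chi_nil, wt]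
      omega
    have e2 : 3 * (j :: js).length = (1 + 2) + 3 * js.length := by
      rw [List.length_cons]
      ring
    rw [e1, e2]
    exact (h4.add_right 2).add h3

theorem dform (E : ℕ) (hE : E % 2 = 0) (h0 : 0 < E) (h3 : E % 3 ≠ 0) (F : ℕ) (hF : 0 < F) (N : ℕ) : ∃ N', ∀ (s e : ℕ)
    (w' : List Bool), LAdm N' N' s e w' → ∀ ν μ ρ : ℕ,
      (3 * w'.length + s % 3) % (2 * E) = (2 * (ν + μ + 3 * ρ + 2) + e % 3) % (2 * E) →
        ∃ w, T s w = w' ∧ (s + chi w) % 3 = e % 3 ∧ DAdm E (E * F) N ν μ ρ w := by
  obtain ⟨K1, hK1⟩ := listD E N hE h0 h3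
  obtain ⟨K2, hK2⟩ := frontD E F N hE h0 h3 hF
  obtain ⟨K3, hK3⟩ := tailD E N hE h0 h3
  refine ⟨K1 + K2 + K3, ?_⟩
  rintro s e w' ⟨n, ks, m, rfl, hn, hm, hg, hs, he⟩ ν μ ρ hlen
  obtain ⟨i, r0, a1, a2, a3⟩ := hK2 n s ν (by omega) hs
  obtain ⟨js2, b1, b2, b3⟩ := hK1 ks 0 (Or.inl rfl) fun k hk => le_trans (by omega) (hg k hk)
  obtain ⟨js3, j, c1, c2, c3, c4, c5⟩ := hK3 m (fin 0 ks) e μ (by omega) (fin_cases' ks 0 (Or.inl rfl)) he
  have hEF : 0 < E * F := Nat.mul_pos h0 hF
  -- assembling
  have asm : ∀ js1 : List ℕ, T s (replicate i false ++ (true :: code js1)) = replicate n false ++ [true] →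
      (s + chi (replicate i false ++ (true :: code js1))) % 3 = 0 →
        T s (replicate i false ++ (true :: (code (js1 ++ (js2 ++ js3)) ++ replicate j false))) =
          replicate n false ++ (true :: (code ks ++ replicate m false)) ∧
        (s + chi (replicate i false ++ (true :: (code (js1 ++ (js2 ++ js3)) ++ replicate j false)))) % 3 = e % 3 := by
    intro js1 d1 d2
    have ew : replicate i false ++ (true :: (code (js1 ++ (js2 ++ js3)) ++ replicate j false)) =
        (replicate i false ++ (true :: code js1)) ++ (code js2 ++ (code js3 ++ replicate j false)) := by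
      rw [code_append, code_append]
      simp only [List.append_assoc, List.cons_append]
    have p1 : (s + chi (replicate i false ++ (true :: code js1))) % 3 = 0 % 3 := by rw [d2]
    have p2 : (s + chi (replicate i false ++ (true :: code js1)) + chi (code js2)) % 3 = fin 0 ks % 3 := by
      have : (0 + chi (code js2)) % 3 % 3 = fin 0 ks % 3 := by rw [b3]
      omega
    constructor
    · rw [ew, T_append (replicate i false ++ (true :: code js1)), T_append (code js2), d1, T_congr (code js2) p1, b2,
        T_congr (code js3 ++ replicate j false) p2, c4]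
      simp
    · rw [ew, chi_append (replicate i false ++ (true :: code js1)), chi_append (code js2)]
      omega
  -- the number of gaps is `ρ` modulo `E`
  have hr0 : r0 + (js2.length + js3.length) ≡ ρ [MOD E] := by
    obtain ⟨js1, -, d2, d3, d4, d5⟩ := a3 r0 rfl
    obtain ⟨f1, f2⟩ := asm js1 d3 d4
    have hL := length_T (replicate i false ++ (true :: (code (js1 ++ (js2 ++ js3)) ++ replicate j false))) s
    rw [f1, f2] at hL
    have hall : ∀ k ∈ js1 ++ (js2 ++ js3), k % 2 = 1 ∧ k % E = 1 % E := by
      intro k hk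
      rcases List.mem_append.1 hk with hk | hk
      · exact (d2 k hk).2
      · rcases List.mem_append.1 hk with hk | hk
        · exact (b1 k hk).2
        · exact (c3 k hk).2
    have hchi := chi_gaps E _ hall
    have hc : chi (replicate i false ++ (true :: (code (js1 ++ (js2 ++ js3)) ++ replicate j false))) =
        i + (2 + (chi (code (js1 ++ (js2 ++ js3))) + j)) := by
      rw [chi_append, chi_replicate, chi_cons, chi_append, chi_replicate]
      rfl
    have hm1 : 2 * chi (replicate i false ++ (true :: (code (js1 ++ (js2 ++ js3)) ++ replicate j false))) + e % 3 ≡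
        2 * (ν + μ + 3 * ρ + 2) + e % 3 [MOD (2 * E)] := by
      rw [← hL]
      exact hlen
    have hm2 := Nat.ModEq.add_right_cancel' _ hm1
    have hm3 : chi (replicate i false ++ (true :: (code (js1 ++ (js2 ++ js3)) ++ replicate j false))) ≡
        ν + μ + 3 * ρ + 2 [MOD E] := Nat.ModEq.mul_left_cancel' (by norm_num) hm2
    have hm4 : i + (2 + (3 * (js1 ++ (js2 ++ js3)).length + j)) ≡ ν + μ + 3 * ρ + 2 [MOD E] := by
      refine Nat.ModEq.trans ?_ hm3
      rw [hc]
      exact Nat.ModEq.add_left _ (Nat.ModEq.add_left _ (Nat.ModEq.add_right _ hchi.symm))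
    have ha : i ≡ ν [MOD E] := a2
    have hb : j ≡ μ [MOD E] := c2
    have hm5 : ν + μ + 2 + 3 * (js1 ++ (js2 ++ js3)).length ≡ ν + μ + 2 + 3 * ρ [MOD E] := by
      have h1 : ν + (2 + (3 * (js1 ++ (js2 ++ js3)).length + μ)) ≡
          i + (2 + (3 * (js1 ++ (js2 ++ js3)).length + j)) [MOD E] :=
        ha.symm.add (Nat.ModEq.add_left _ (Nat.ModEq.add_left _ hb.symm))
      have h2 := h1.trans hm4
      have e1 : ν + μ + 2 + 3 * (js1 ++ (js2 ++ js3)).length = ν + (2 + (3 * (js1 ++ (js2 ++ js3)).length + μ)) := by ring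
      have e2 : ν + μ + 2 + 3 * ρ = ν + μ + 3 * ρ + 2 := by ring
      rw [e1, e2]
      exact h2
    have hm6 := Nat.ModEq.add_left_cancel' _ hm5
    have hcop : Nat.gcd E 3 = 1 := by
      have : Nat.Coprime 3 E := (Nat.Prime.coprime_iff_not_dvd Nat.prime_three).2 fun h => h3 (Nat.mod_eq_zero_of_dvd h)
      exact this.symm
    have hm7 : (js1 ++ (js2 ++ js3)).length ≡ ρ [MOD E] := Nat.ModEq.cancel_left_of_coprime hcop hm6
    rw [List.length_append, List.length_append] at hm7
    have hl : js1.length ≡ r0 [MOD E] := Nat.ModEq.of_mul_right F d5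
    exact (hl.symm.add_right _).trans hm7
  -- the choice of the number of gaps
  obtain ⟨r, hr1, hr2⟩ : ∃ r, r ≡ r0 [MOD E] ∧ r + (js2.length + js3.length) ≡ ρ [MOD (E * F)] := by
    have e1 : ρ + (E * F - 1) * (js2.length + js3.length) + (js2.length + js3.length) =
        ρ + (E * F) * (js2.length + js3.length) := by
      obtain ⟨q, hq⟩ : ∃ q, E * F = q + 1 := ⟨E * F - 1, by omega⟩
      rw [hq]
      simp only [Nat.add_sub_cancel]
      ring
    have h2 : ρ + (E * F - 1) * (js2.length + js3.length) + (js2.length + js3.length) ≡ ρ [MOD (E * F)] := by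
      rw [e1]
      exact (Nat.ModEq.refl ρ).add (Nat.modEq_zero_iff_dvd.2 (dvd_mul_right _ _))
    refine ⟨ρ + (E * F - 1) * (js2.length + js3.length), ?_, h2⟩
    have h4 : ρ + (E * F - 1) * (js2.length + js3.length) + (js2.length + js3.length) ≡
        r0 + (js2.length + js3.length) [MOD E] := (Nat.ModEq.of_mul_right F h2).trans hr0.symm
    exact Nat.ModEq.add_right_cancel' _ h4
  obtain ⟨js1, d1, d2, d3, d4, d5⟩ := a3 r hr1
  obtain ⟨f1, f2⟩ := asm js1 d3 d4
  refine ⟨_, f1, f2, i, js1 ++ (js2 ++ js3), j, rfl, a1, c1, ?_, ?_, a2, c2, ?_⟩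
  · rw [List.length_append]
    omega
  · intro k hk
    rcases List.mem_append.1 hk with hk | hk
    · exact d2 k hk
    · rcases List.mem_append.1 hk with hk | hk
      · exact b1 k hk
      · exact c3 k hk
  · rw [List.length_append, List.length_append]
    have h5 : js1.length ≡ r [MOD (E * F)] := d5
    exact (h5.add_right _).trans hr2

end Pool.Agent.PR33
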