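import Pool.Agent.PR33.Filler

/-!
# [PR33-DList] lists of long gaps are images of lists of gaps that are one modulo a number (helper77)
-/

set_option autoImplicit false

namespace Pool.Agent.PR33

open Pool.Agent.PostTag Pool.Agent.PT33 List

private theorem crtD (D : ℕ) (h0 : 0 < D) (h3 : D % 3 ≠ 0) (N t : ℕ) : ∃ x, N ≤ x ∧ x % D = 1 % D ∧ x % 3 = t % 3 := by
  have hcop : Nat.Coprime D 3 := by
    have : Nat.Coprime 3 D := (Nat.Prime.coprime_iff_not_dvd Nat.prime_three).2 fun h => h3 (Nat.mod_eq_zero_of_dvd h)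
    exact this.symm
  obtain ⟨y, hy1, hy2⟩ := Nat.chineseRemainder hcop 1 t
  refine ⟨y + D * 3 * N, ?_, ?_, ?_⟩
  · have : 1 * N ≤ D * 3 * N := Nat.mul_le_mul_right _ (by omega)
    omega
  · have e : y + D * 3 * N = y + D * (3 * N) := by ring
    rw [e, Nat.add_mul_mod_self_left]
    exact hy1
  · have e : y + D * 3 * N = y + 3 * (D * N) := by ring
    rw [e, Nat.add_mul_mod_self_left]
    exact hy2

private theorem oddD {D x : ℕ} (hD : D % 2 = 0) (hx : x % D = 1 % D) : x % 2 = 1 := by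
  have h1 : x % D % 2 = x % 2 := Nat.mod_mod_of_dvd x (Nat.dvd_of_mod_eq_zero hD)
  have h2 : 1 % D % 2 = 1 % 2 := Nat.mod_mod_of_dvd 1 (Nat.dvd_of_mod_eq_zero hD)
  rw [hx] at h1
  omega

/-- one gap -/
theorem oneD (D N : ℕ) (hD : D % 2 = 0) (h0 : 0 < D) (h3 : D % 3 ≠ 0) : ∃ K, ∀ (k c : ℕ), (c = 0 ∨ c = 2) → K ≤ k →
    ∃ js : List ℕ, (∀ j ∈ js, N ≤ j ∧ j % 2 = 1 ∧ j % D = 1 % D) ∧ T c (code js) = replicate k false ++ run1 k ∧
      (c + chi (code js)) % 3 = nxt k := by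
  obtain ⟨Z, hZ⟩ := filler D 1 N hD h0 one_pos
  obtain ⟨i0, a1, a2, a3⟩ := crtD D h0 h3 N 2
  obtain ⟨i2, b1, b2, b3⟩ := crtD D h0 h3 N 0
  refine ⟨2 * Z + 2 * i0 + 2 * i2 + 4, fun k c hc hk => ?_⟩
  have o0 := oddD hD a2
  have o2 := oddD hD b2
  -- the first gap
  obtain ⟨i, hi1, hi2, hi3, hi4, hi5⟩ : ∃ i, N ≤ i ∧ i % D = 1 % D ∧ i % 2 = 1 ∧ (c + i) % 3 = 2 ∧ i ≤ i0 + i2 := by
    rcases hc with rfl | rfl
    · exact ⟨i0, a1, a2, o0, by omega, by omega⟩
    · exact ⟨i2, b1, b2, o2, by omega, by omega⟩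
  -- the last gap
  obtain ⟨j, hj1, hj2, hj3, hj4, hj5⟩ : ∃ j, N ≤ j ∧ j % D = 1 % D ∧ j % 2 = 1 ∧
      (k % 2 = 1 ∧ j % 3 = 0 ∨ k % 2 = 0 ∧ j % 3 = 2) ∧ j ≤ i0 + i2 := by
    rcases Nat.mod_two_eq_zero_or_one k with h | h
    · exact ⟨i0, a1, a2, o0, Or.inr ⟨h, a3⟩, by omega⟩
    · exact ⟨i2, b1, b2, o2, Or.inl ⟨h, b3⟩, by omega⟩
  obtain ⟨z, hz⟩ : ∃ z, nm c i + 1 + 2 * z + nm 1 j = k := by
    refine ⟨(k - 1 - nm c i - nm 1 j) / 2, ?_⟩
    simp only [nm]
    rcases hc with rfl | rfl <;> rcases hj4 with h | h <;> omega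
  have hZz : Z ≤ z := by
    have h1 : nm c i ≤ i := Nat.sub_le _ _
    have h2 : nm 1 j ≤ j := Nat.sub_le _ _
    omega
  obtain ⟨fl, -, f2, f3, f4, -⟩ := hZ z z hZz rfl
  have ci : code [i] = replicate i false ++ [true] := by simp [code, run1, hi3]
  have cj : code [j] = replicate j false ++ [true] := by simp [code, run1, hj3]
  have e4 : T (c + i) [true] = [false] := T_run2 hi4
  have e5 : chi [true] = 2 := rfl
  have e6 : ([false] : List Bool) = replicate 1 false := rfl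
  have ci' : chi (code [i]) = i + 2 := by rw [ci, chi_append, chi_replicate, e5]
  have cj' : chi (code [j]) = j + 2 := by rw [cj, chi_append, chi_replicate, e5]
  have Ti : T c (code [i]) = replicate (nm c i + 1) false := by
    rw [ci, T_gap, e4, e6, ← List.replicate_add]
  have ew : code ([i] ++ (fl ++ [j])) = code [i] ++ (code fl ++ code [j]) := by
    rw [code_append, code_append]
  have p1 : (c + chi (code [i])) % 3 = 1 % 3 := by
    rw [ci']
    omega
  have p2 : (c + chi (code [i]) + chi (code fl)) % 3 = 1 % 3 := by omega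
  refine ⟨[i] ++ (fl ++ [j]), ?_, ?_, ?_⟩
  · intro x hx
    rcases List.mem_append.1 hx with hx | hx
    · rw [List.mem_singleton] at hx
      subst hx
      exact ⟨hi1, hi3, hi2⟩
    · rcases List.mem_append.1 hx with hx | hx
      · exact f2 x hx
      · rw [List.mem_singleton] at hx
        subst hx
        exact ⟨hj1, hj3, hj2⟩
  · rw [ew, T_append, T_append, T_congr (code fl) p1, T_congr (code [j]) p2, Ti, f3, cj, T_gap, rep_add, rep_add, hz]
    rcases hj4 with ⟨h1, h2⟩ | ⟨h1, h2⟩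
    · rw [T_run1 (by omega), run1, if_pos h1]
    · rw [T_run0 (by omega), run1, if_neg (by omega)]
  · rw [ew, chi_append, chi_append, cj', nxt]
    rcases hj4 with ⟨h1, h2⟩ | ⟨h1, h2⟩
    · rw [if_pos h1]
      omega
    · rw [if_neg (by omega)]
      omega

theorem listD (D N : ℕ) (hD : D % 2 = 0) (h0 : 0 < D) (h3 : D % 3 ≠ 0) : ∃ K, ∀ (ks : List ℕ) (c : ℕ), (c = 0 ∨ c = 2) →
    (∀ k ∈ ks, K ≤ k) → ∃ js : List ℕ, (∀ j ∈ js, N ≤ j ∧ j % 2 = 1 ∧ j % D = 1 % D) ∧ T c (code js) = code ks ∧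
      (c + chi (code js)) % 3 = fin c ks := by
  obtain ⟨K, hK⟩ := oneD D N hD h0 h3
  refine ⟨K, fun ks => ?_⟩
  induction ks with
  | nil =>
    intro c hc _
    refine ⟨[], by simp, rfl, ?_⟩
    rcases hc with rfl | rfl <;> rfl
  | cons k ks ih =>
    intro c hc hk
    obtain ⟨js, a1, a2, a3⟩ := hK k c hc (hk k (by simp))
    obtain ⟨is, b1, b2, b3⟩ := ih (nxt k) (nxt_cases k) fun x hx => hk x (by simp [hx])
    have hm : (c + chi (code js)) % 3 = nxt k % 3 := by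
      rw [a3]
      rcases nxt_cases k with h | h <;> rw [h]
    refine ⟨js ++ is, ?_, ?_, ?_⟩
    · intro x hx
      rcases List.mem_append.1 hx with hx | hx
      · exact a1 x hx
      · exact b1 x hx
    · rw [code_append, T_append, a2, T_congr (code is) hm, b2]
      simp [code]
    · have h4 : (nxt k + chi (code is)) % 3 = fin c (k :: ks) := b3
      rw [code_append, chi_append, ← h4]
      omega

end Pool.Agent.PR33
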