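import Pool.Agent.PT33.Tab

/-!
# [PR33-Defs] words with long gaps, and words whose gaps are one modulo a number (helper33)

Words are coded in the blocks `a = 00` (`false`), `b = 1101` (`true`). `LAdm`: all gaps are long. `DAdm D C`: all gaps are odd, long and
`1` modulo `D`, the number of gaps is prescribed modulo `C`, the lengths of the first and the last run modulo `D`.
-/

set_option autoImplicit false

namespace Pool.Agent.PR33

open Pool.Agent.PostTag Pool.Agent.PT33 List

/-- the number of zeros already written when a piece starts in the phase `c` -/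
def pend (c : ℕ) : ℕ := if c % 3 = 1 then 1 else 0

/-- `a^n b a^(k_1) r_1 .. a^m` with long runs of `a`; `s` and `e` are the phases at the start and at the end of the pass whose result
the word is -/
def LAdm (N G s e : ℕ) (w : List Bool) : Prop := ∃ (n : ℕ) (ks : List ℕ) (m : ℕ),
  w = replicate n false ++ (true :: (code ks ++ replicate m false)) ∧ N ≤ n ∧ N ≤ m ∧ (∀ k ∈ ks, G ≤ k) ∧
    (n % 2 = 1 ↔ s % 3 ≠ 1) ∧ (m % 2 = 1 ↔ e % 3 = 1)

/-- all gaps are `1` modulo `D`, their number is `ρ` modulo `C` -/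
def DAdm (D C N ν μ ρ : ℕ) (w : List Bool) : Prop := ∃ (n : ℕ) (ks : List ℕ) (m : ℕ),
  w = replicate n false ++ (true :: (code ks ++ replicate m false)) ∧ N ≤ n ∧ N ≤ m ∧ N ≤ ks.length ∧
    (∀ k ∈ ks, N ≤ k ∧ k % 2 = 1 ∧ k % D = 1 % D) ∧ n % D = ν % D ∧ m % D = μ % D ∧ ks.length % C = ρ % C

/-- a computation that ends in `z` and starts with long gaps -/
def Seed (z : List Bool) : Prop := ∃ (n : ℕ) (ks : List ℕ) (m q : ℕ), 72 ≤ n ∧ 72 ≤ m ∧ (∀ k ∈ ks, 8 ≤ k) ∧
  (m % 2 = 1 ↔ q % 3 = 1) ∧ Rch z ((dec (replicate n false ++ (true :: (code ks ++ replicate m false)))).drop (q % 3))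

/-- the preimage of the length of the first run -/
def up (s n : ℕ) : ℕ := if s % 3 = 1 then 3 * n / 2 else if s % 3 = 0 then (3 * n - 1) / 2 else (3 * n + 1) / 2

end Pool.Agent.PR33
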