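import Pool.Agent.PR33.Defs

/-!
# [PR33-Mon] a homomorphism to a finite monoid is constant on the words of `DAdm` (helper21)
-/

set_option autoImplicit false

namespace Pool.Agent.PR33

open Pool.Agent.PostTag Pool.Agent.PT33 List

theorem mon_pow {M : Type} [Monoid M] [Finite M] :
    ∃ P N : ℕ, 0 < P ∧ ∀ (x : M) (i j : ℕ), N ≤ i → N ≤ j → i % P = j % P → x ^ i = x ^ j := by
  classical
  haveI := Fintype.ofFinite M
  have h1 : ∀ x : M, ∃ a p : ℕ, 0 < p ∧ ∀ i, a ≤ i → x ^ (i + p) = x ^ i := by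
    intro x
    obtain ⟨a, b, hab, he⟩ := Finite.exists_ne_map_eq_of_infinite (fun n : ℕ => x ^ n)
    wlog h : a < b generalizing a b with H
    · exact H b a (Ne.symm hab) he.symm (by omega)
    · refine ⟨a, b - a, by omega, fun i hi => ?_⟩
      have h2 : i + (b - a) = (i - a) + b := by omega
      have h3 : i = (i - a) + a := by omega
      have he' : x ^ a = x ^ b := he
      rw [h2, pow_add, ← he', ← pow_add, ← h3]
  choose a p hp hx using h1
  refine ⟨∏ x, p x, ∑ x, a x, Finset.prod_pos (fun x _ => hp x), ?_⟩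
  have key : ∀ (x : M) (i t : ℕ), a x ≤ i → x ^ (i + p x * t) = x ^ i := by
    intro x i t hi
    induction t with
    | zero => simp
    | succ t ih =>
      rw [Nat.mul_succ, ← Nat.add_assoc, hx x _ (le_trans hi (Nat.le_add_right _ _)), ih]
  have key2 : ∀ (x : M) (i j : ℕ), ∑ x, a x ≤ i → i ≤ j → i % (∏ x, p x) = j % (∏ x, p x) →
      x ^ i = x ^ j := by
    intro x i j hi hij hm
    have h2 : a x ≤ ∑ x, a x := Finset.single_le_sum (fun _ _ => Nat.zero_le _) (Finset.mem_univ x)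
    have h3 : (∏ x, p x) ∣ j - i := (Nat.modEq_iff_dvd' hij).1 hm
    have h4 : p x ∣ j - i := (Finset.dvd_prod_of_mem p (Finset.mem_univ x)).trans h3
    obtain ⟨t, ht⟩ := h4
    have h5 : j = i + p x * t := by omega
    rw [h5, key x i t (h2.trans hi)]
  intro x i j hi hj hm
  rcases le_total i j with h | h
  · exact key2 x i j hi h hm
  · exact (key2 x j i hj h hm.symm).symm

theorem mon_rep {M : Type} [Monoid M] (f : List Bool → M) (h1 : f [] = 1)
    (hf : ∀ x y, f (x ++ y) = f x * f y) (n : ℕ) :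
    f (dec (replicate n false)) = f (dec [false]) ^ n := by
  induction n with
  | zero => simpa using h1
  | succ n ih =>
    rw [replicate_succ, ← singleton_append, dec_append, hf, ih, pow_succ']

theorem mon_code {M : Type} [Monoid M] (f : List Bool → M) (h1 : f [] = 1)
    (hf : ∀ x y, f (x ++ y) = f x * f y) (z : M) (ks : List ℕ)
    (hk : ∀ k ∈ ks, k % 2 = 1 ∧ f (dec [false]) ^ k * f (dec (run1 1)) = z) :
    f (dec (code ks)) = z ^ ks.length := by
  induction ks with
  | nil => simpa [code] using h1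
  | cons k ks ih =>
    have h2 := hk k (by simp)
    have h3 : run1 k = run1 1 := by simp [run1, h2.1]
    rw [code, dec_append, hf, dec_append, hf, mon_rep f h1 hf, h3, ih (fun k hk' => hk k (by simp [hk'])),
      ← mul_assoc, h2.2, length_cons, pow_succ']

theorem mon_const {M : Type} [Monoid M] [Finite M] (f : List Bool → M) (h1 : f [] = 1) (hf : ∀ x y, f (x ++ y) = f x * f y) :
    ∃ P N : ℕ, 0 < P ∧ ∀ (D C ν μ ρ : ℕ) (w w' : List Bool), P ∣ D → P ∣ C → DAdm D C N ν μ ρ w → DAdm D C N ν μ ρ w' →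
      f (dec w) = f (dec w') := by
  obtain ⟨P, N, hP, hpow⟩ := mon_pow (M := M)
  refine ⟨P, N, hP, ?_⟩
  intro D C ν μ ρ w w' hD hC hw hw'
  have hmod : ∀ {a b E : ℕ}, P ∣ E → a % E = b % E → a % P = b % P := by
    intro a b E hE hab
    rw [← Nat.mod_mod_of_dvd a hE, hab, Nat.mod_mod_of_dvd b hE]
  have hk : ∀ k, N ≤ k ∧ k % 2 = 1 ∧ k % D = 1 % D → k % 2 = 1 ∧
      f (dec [false]) ^ k * f (dec (run1 1)) = f (dec [false]) ^ (1 + D * N) * f (dec (run1 1)) := by
    rintro k ⟨hk1, hk2, hk3⟩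
    refine ⟨hk2, ?_⟩
    congr 1
    rcases Nat.eq_zero_or_pos D with h0 | h0
    · subst h0
      simp only [Nat.mod_zero] at hk3
      simp [hk3]
    · refine hpow _ _ _ hk1 ?_ (hmod hD ?_)
      · nlinarith
      · rw [hk3, Nat.add_mul_mod_self_left]
  have hval : ∀ w, DAdm D C N ν μ ρ w → ∃ n m l : ℕ, N ≤ n ∧ N ≤ m ∧ N ≤ l ∧ n % D = ν % D ∧
      m % D = μ % D ∧ l % C = ρ % C ∧ f (dec w) = f (dec [false]) ^ n * (f (dec [true]) *
        ((f (dec [false]) ^ (1 + D * N) * f (dec (run1 1))) ^ l * f (dec [false]) ^ m)) := by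
    rintro w ⟨n, ks, m, rfl, h2, h3, h4, h5, h6, h7, h8⟩
    refine ⟨n, m, ks.length, h2, h3, h4, h6, h7, h8, ?_⟩
    rw [dec_append, hf, ← singleton_append, dec_append [true], hf, dec_append (code ks), hf,
      mon_rep f h1 hf, mon_rep f h1 hf, mon_code f h1 hf _ ks (fun k hk' => hk k (h5 k hk'))]
  obtain ⟨n, m, l, a1, a2, a3, a4, a5, a6, a7⟩ := hval w hw
  obtain ⟨n', m', l', b1, b2, b3, b4, b5, b6, b7⟩ := hval w' hw'
  rw [a7, b7, hpow _ n n' a1 b1 (hmod hD (a4.trans b4.symm)),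
    hpow _ m m' a2 b2 (hmod hD (a5.trans b5.symm)),
    hpow _ l l' a3 b3 (hmod hC (a6.trans b6.symm))]

end Pool.Agent.PR33
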