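import Pool.Agent.PR33.Defs

/-!
# [PR33-Triv] the preimage with all letters `b` in the phase one (helper96)
-/

set_option autoImplicit false

namespace Pool.Agent.PR33

open Pool.Agent.PostTag Pool.Agent.PT33 List

private theorem up_add {s r P : ℕ} (hr : r % 2 = 1 ↔ s % 3 ≠ 1) : up s (r + 2 * P) = up s r + 3 * P := by
  unfold up
  by_cases h1 : s % 3 = 1
  · rw [if_pos h1, if_pos h1]
    have h2 : r % 2 = 0 := by
      by_contra h
      exact (hr.1 (by omega)) h1
    omega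
  · rw [if_neg h1, if_neg h1]
    have h2 : r % 2 = 1 := hr.2 h1
    by_cases h3 : s % 3 = 0
    · rw [if_pos h3, if_pos h3]; omega
    · rw [if_neg h3, if_neg h3]; omega

theorem up_congr (D s a b : ℕ) (ha : a % 2 = 1 ↔ s % 3 ≠ 1) (hab : a % (2 * D) = b % (2 * D)) : up s a % (3 * D) = up s b % (3 * D) := by
  obtain ⟨r, hr⟩ : ∃ r, r = a % (2 * D) := ⟨_, rfl⟩
  have h1 : a = r + 2 * (D * (a / (2 * D))) := by
    have := Nat.mod_add_div a (2 * D)
    rw [← hr] at this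
    rw [← Nat.mul_assoc]; exact this.symm
  have h2 : b = r + 2 * (D * (b / (2 * D))) := by
    have := Nat.mod_add_div b (2 * D)
    rw [← hab, ← hr] at this
    rw [← Nat.mul_assoc]; exact this.symm
  have hr2 : r % 2 = 1 ↔ s % 3 ≠ 1 := by
    have : r % 2 = a % 2 := by rw [hr]; exact Nat.mod_mod_of_dvd a (Nat.dvd_mul_right 2 D)
    rw [this]; exact ha
  rw [h1, h2, up_add hr2, up_add hr2, ← Nat.mul_assoc, ← Nat.mul_assoc, Nat.add_mul_mod_self_left,
    Nat.add_mul_mod_self_left]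

private theorem crt3' (D : ℕ) (h0 : 0 < D) (h3 : D % 3 ≠ 0) (a b : ℕ) : ∃ x, 3 ≤ x ∧
    x % D = b % D ∧ x % 3 = a % 3 := by
  obtain ⟨c, hc⟩ : ∃ c, c = b % D := ⟨_, rfl⟩
  have key : ∃ k, 3 ≤ k ∧ (c + D * k) % 3 = a % 3 := by
    have h : D % 3 = 1 ∨ D % 3 = 2 := by omega
    rcases h with h | h
    · refine ⟨(a + 2 * c) % 3 + 3, by omega, ?_⟩
      obtain ⟨d, hd⟩ : ∃ d, D = 3 * d + 1 := ⟨D / 3, by omega⟩
      obtain ⟨k, hk⟩ : ∃ k, k = (a + 2 * c) % 3 := ⟨_, rfl⟩
      rw [← hk, hd]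
      obtain ⟨w, hw⟩ : ∃ w, w = d * (k + 3) := ⟨_, rfl⟩
      have e : (3 * d + 1) * (k + 3) = 3 * w + k + 3 := by rw [hw]; ring
      rw [e]
      omega
    · refine ⟨(2 * a + c) % 3 + 3, by omega, ?_⟩
      obtain ⟨d, hd⟩ : ∃ d, D = 3 * d + 2 := ⟨D / 3, by omega⟩
      obtain ⟨k, hk⟩ : ∃ k, k = (2 * a + c) % 3 := ⟨_, rfl⟩
      rw [← hk, hd]
      obtain ⟨w, hw⟩ : ∃ w, w = d * (k + 3) := ⟨_, rfl⟩
      have e : (3 * d + 2) * (k + 3) = 3 * w + 2 * k + 6 := by rw [hw]; ring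
      rw [e]
      omega
  obtain ⟨k, hk3, hk⟩ := key
  refine ⟨c + D * k, ?_, ?_, hk⟩
  · have h1 : 1 * k ≤ D * k := Nat.mul_le_mul_right _ h0
    omega
  · rw [Nat.add_mul_mod_self_left, hc, Nat.mod_mod]

theorem solve (E s x : ℕ) (h0 : 0 < E) (h3 : E % 3 ≠ 0) : ∃ x', (x' % 2 = 1 ↔ s % 3 ≠ 1) ∧ up s x' % E = x % E := by
  have hs : s % 3 = 0 ∨ s % 3 = 1 ∨ s % 3 = 2 := by omega
  rcases hs with hs | hs | hs
  · obtain ⟨z, z1, z2, z3⟩ := crt3' E h0 h3 1 x
    refine ⟨2 * ((z - 1) / 3) + 1, by omega, ?_⟩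
    have : up s (2 * ((z - 1) / 3) + 1) = z := by
      unfold up
      rw [if_neg (by omega), if_pos hs]
      omega
    rw [this]; exact z2
  · obtain ⟨z, z1, z2, z3⟩ := crt3' E h0 h3 0 x
    refine ⟨2 * (z / 3), by omega, ?_⟩
    have : up s (2 * (z / 3)) = z := by
      unfold up
      rw [if_pos hs]
      omega
    rw [this]; exact z2
  · obtain ⟨z, z1, z2, z3⟩ := crt3' E h0 h3 2 x
    refine ⟨2 * ((z - 2) / 3) + 1, by omega, ?_⟩
    have : up s (2 * ((z - 2) / 3) + 1) = z := by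
      unfold up
      rw [if_neg (by omega), if_neg (by omega)]
      omega
    rw [this]; exact z2

private theorem codeT (ks : List ℕ) : (∀ k ∈ ks, k % 4 = 1) →
    T 0 (code (ks.map (fun k => (3 * k - 1) / 2))) = code ks ∧
      chi (code (ks.map (fun k => (3 * k - 1) / 2))) % 3 = 0 := by
  induction ks with
  | nil => intro _; exact ⟨rfl, rfl⟩
  | cons k ks ih =>
    intro h
    have hk := h k (by simp)
    obtain ⟨i1, i2⟩ := ih fun x hx => h x (List.mem_cons_of_mem _ hx)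
    obtain ⟨g, hg⟩ : ∃ g, g = (3 * k - 1) / 2 := ⟨_, rfl⟩
    have e1 : code ((k :: ks).map (fun k => (3 * k - 1) / 2)) =
        replicate g false ++ ([true] ++ code (ks.map (fun k => (3 * k - 1) / 2))) := by
      have : g % 2 = 1 := by omega
      rw [List.map_cons, ← hg]
      simp [code, run1, this]
    have e2 : code (k :: ks) = replicate k false ++ ([true] ++ code ks) := by
      have : k % 2 = 1 := by omega
      simp [code, run1, this]
    have hn : nm 0 g = k := by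
      simp only [nm]
      omega
    have hp : (0 + g) % 3 = 1 := by omega
    have e5 : chi [true] = 2 := rfl
    constructor
    · rw [e1, e2, T_gap, hn, T_append, T_run1 hp, e5,
        T_congr (code (ks.map (fun k => (3 * k - 1) / 2))) (show (0 + g + 2) % 3 = 0 % 3 by omega), i1]
    · rw [e1, chi_append, chi_append, chi_replicate, e5]
      omega

theorem triv (E C N s : ℕ) (w' : List Bool) (ν μ ρ : ℕ) (h0 : 0 < E) (h2 : E % 2 = 0) (h : DAdm (2 * E) C N ν μ ρ w')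
    (hν : ν % 2 = 1 ↔ s % 3 ≠ 1) (hμ : μ % 2 = 0) : ∃ w, T s w = w' ∧ (s + chi w) % 3 = 0 ∧
      DAdm (3 * E) C N (up s ν) (3 * μ / 2) ρ w := by
  obtain ⟨n, ks, m, rfl, hn, hm, hl, hk, hnν, hmμ, hρ⟩ := h
  have hn2 : n % 2 = 1 ↔ s % 3 ≠ 1 := by
    have e1 : n % (2 * E) % 2 = n % 2 := Nat.mod_mod_of_dvd n (Nat.dvd_mul_right 2 E)
    have e2 : ν % (2 * E) % 2 = ν % 2 := Nat.mod_mod_of_dvd ν (Nat.dvd_mul_right 2 E)
    rw [hnν, e2] at e1
    rw [← e1]; exact hν
  have hm2 : m % 2 = 0 := by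
    have e1 : m % (2 * E) % 2 = m % 2 := Nat.mod_mod_of_dvd m (Nat.dvd_mul_right 2 E)
    have e2 : μ % (2 * E) % 2 = μ % 2 := Nat.mod_mod_of_dvd μ (Nat.dvd_mul_right 2 E)
    rw [hmμ, e2] at e1
    omega
  have hk4 : ∀ k ∈ ks, k % 4 = 1 := by
    intro k hkk
    have h3 := (hk k hkk).2.2
    have h4 : (4 : ℕ) ∣ 2 * E := by
      obtain ⟨e, he⟩ : ∃ e, E = 2 * e := ⟨E / 2, by omega⟩
      exact ⟨e, by rw [he]; ring⟩
    have e1 : k % (2 * E) % 4 = k % 4 := Nat.mod_mod_of_dvd k h4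
    have e2 : 1 % (2 * E) % 4 = 1 % 4 := Nat.mod_mod_of_dvd 1 h4
    rw [h3, e2] at e1
    omega
  obtain ⟨c1, c2⟩ := codeT ks hk4
  obtain ⟨i, hi⟩ : ∃ i, i = up s n := ⟨_, rfl⟩
  have hi2 : (s + i) % 3 = 1 ∧ nm s i = n ∧ n ≤ i := by
    rw [hi]
    unfold up
    simp only [nm]
    by_cases h1 : s % 3 = 1
    · rw [if_pos h1]
      have : n % 2 = 0 := by
        by_contra h
        exact (hn2.1 (by omega)) h1
      omega
    · rw [if_neg h1]
      have : n % 2 = 1 := hn2.2 h1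
      by_cases h3 : s % 3 = 0
      · rw [if_pos h3]; omega
      · rw [if_neg h3]; omega
  obtain ⟨hi1, hi3, hi4⟩ := hi2
  obtain ⟨m', hm'⟩ : ∃ m', m' = 3 * m / 2 := ⟨_, rfl⟩
  have hnm' : nm 0 m' = m := by
    simp only [nm]
    omega
  have e5 : chi [true] = 2 := rfl
  have ew : replicate i false ++ (true :: (code (ks.map (fun k => (3 * k - 1) / 2)) ++ replicate m' false)) =
      replicate i false ++ ([true] ++ (code (ks.map (fun k => (3 * k - 1) / 2)) ++ replicate m' false)) := rfl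
  refine ⟨replicate i false ++ (true :: (code (ks.map (fun k => (3 * k - 1) / 2)) ++ replicate m' false)), ?_, ?_, ?_⟩
  · rw [ew, T_gap, hi3, T_append, T_run1 hi1, e5, T_append,
      T_congr (code (ks.map (fun k => (3 * k - 1) / 2))) (show (s + i + 2) % 3 = 0 % 3 by omega), c1,
      T_congr (replicate m' false) (show (s + i + 2 + chi (code (ks.map (fun k => (3 * k - 1) / 2)))) % 3 = 0 % 3 by omega),
      T_replicate, hnm']
    rfl
  · rw [ew, chi_append, chi_append, chi_append, chi_replicate, chi_replicate, e5]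
    omega
  · refine ⟨i, ks.map (fun k => (3 * k - 1) / 2), m', rfl, by omega, by omega, by rw [List.length_map]; exact hl,
      ?_, ?_, ?_, by rw [List.length_map]; exact hρ⟩
    · intro k' hk'
      rw [List.mem_map] at hk'
      obtain ⟨k, hkk, rfl⟩ := hk'
      obtain ⟨a1, a2, a3⟩ := hk k hkk
      have a4 := hk4 k hkk
      refine ⟨by omega, by omega, ?_⟩
      obtain ⟨c, hc⟩ : ∃ c, k = 1 + 2 * E * c := by
        refine ⟨k / (2 * E), ?_⟩
        have h5 := Nat.mod_add_div k (2 * E)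
        have h6 : 1 % (2 * E) = 1 := Nat.mod_eq_of_lt (by omega)
        rw [a3, h6] at h5
        exact h5.symm
      have h7 : (3 * k - 1) / 2 = 1 + 3 * E * c := by
        obtain ⟨P, hP⟩ : ∃ P, P = E * c := ⟨_, rfl⟩
        have h8 : 2 * E * c = 2 * P := by rw [hP]; ring
        have h9 : 3 * E * c = 3 * P := by rw [hP]; ring
        rw [h9]
        rw [h8] at hc
        omega
      rw [h7, Nat.add_mul_mod_self_left]
    · rw [hi]
      exact up_congr E s n ν hn2 hnν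
    · obtain ⟨r, hr⟩ : ∃ r, r = m % (2 * E) := ⟨_, rfl⟩
      have h1 : m = r + 2 * (E * (m / (2 * E))) := by
        have := Nat.mod_add_div m (2 * E)
        rw [← hr] at this
        rw [← Nat.mul_assoc]; exact this.symm
      have h2' : μ = r + 2 * (E * (μ / (2 * E))) := by
        have := Nat.mod_add_div μ (2 * E)
        rw [← hmμ, ← hr] at this
        rw [← Nat.mul_assoc]; exact this.symm
      have h3 : m' = 3 * r / 2 + 3 * E * (m / (2 * E)) := by
        obtain ⟨P, hP⟩ : ∃ P, P = E * (m / (2 * E)) := ⟨_, rfl⟩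
        rw [← hP] at h1
        rw [hm', Nat.mul_assoc, ← hP]
        omega
      have h4 : 3 * μ / 2 = 3 * r / 2 + 3 * E * (μ / (2 * E)) := by
        obtain ⟨P, hP⟩ : ∃ P, P = E * (μ / (2 * E)) := ⟨_, rfl⟩
        rw [← hP] at h2'
        rw [Nat.mul_assoc, ← hP]
        omega
      rw [h3, h4, Nat.add_mul_mod_self_left, Nat.add_mul_mod_self_left]

end Pool.Agent.PR33
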