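import Pool.Agent.PR33.Back
import Pool.Agent.PR33.DForm
import Pool.Agent.PR33.Mon
import Pool.Agent.PR33.Triv

/-!
# [PR33-Fill2] every context can be completed by words whose gaps are one modulo a number (helper33)

`LFill z E G X q`: the context `X` in phase `q` can be completed by a word with gaps of length at least `G` and of prescribed length
modulo `2 E` such that the computation reaches `z`. `tfill`: the same with gaps `1` modulo `3 ^ a * E`.
-/

set_option autoImplicit false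

namespace Pool.Agent.PR33

open Pool.Agent.PostTag Pool.Agent.PT33 List

theorem six_of (N n : ℕ) (V : List Bool) (hN : 8 ≤ N) (hn : N ≤ n) :
    ∃ U', replicate n false ++ (true :: V) = replicate 6 false ++ U' ∧ 2 ≤ U'.length := by
  refine ⟨replicate (n - 6) false ++ (true :: V), ?_, ?_⟩
  · rw [rep_add]
    congr 2
    omega
  · rw [List.length_append, List.length_replicate]
    omega

theorem long_of {w : List Bool} (h : ∃ U', w = replicate 6 false ++ U' ∧ 2 ≤ U'.length) : 4 ≤ (dec w).length := by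
  obtain ⟨U', rfl, _⟩ := h
  rw [dec_append, List.length_append, dec_replicate_false, List.length_replicate]
  omega

theorem LAdm.six {N G s e : ℕ} {w : List Bool} (hN : 8 ≤ N) (h : LAdm N G s e w) :
    ∃ U', w = replicate 6 false ++ U' ∧ 2 ≤ U'.length := by
  obtain ⟨n, ks, m, rfl, hn, _⟩ := h
  exact six_of N n _ hN hn

theorem DAdm.six {D C N ν μ ρ : ℕ} {w : List Bool} (hN : 8 ≤ N) (h : DAdm D C N ν μ ρ w) :
    ∃ U', w = replicate 6 false ++ U' ∧ 2 ≤ U'.length := by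
  obtain ⟨n, ks, m, rfl, hn, _⟩ := h
  exact six_of N n _ hN hn

theorem LAdm.mono {N N' G G' s e : ℕ} {w : List Bool} (hN : N' ≤ N) (hG : G' ≤ G) (h : LAdm N G s e w) : LAdm N' G' s e w := by
  obtain ⟨n, ks, m, h1, h2, h3, h4, h5⟩ := h
  exact ⟨n, ks, m, h1, hN.trans h2, hN.trans h3, fun k hk => hG.trans (h4 k hk), h5⟩

theorem DAdm.mono {D C N N' ν μ ρ : ℕ} {w : List Bool} (hN : N' ≤ N) (h : DAdm D C N ν μ ρ w) : DAdm D C N' ν μ ρ w := by
  obtain ⟨n, ks, m, h1, h2, h3, h4, h5, h6⟩ := h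
  exact ⟨n, ks, m, h1, hN.trans h2, hN.trans h3, hN.trans h4, fun k hk => ⟨hN.trans (h5 k hk).1, (h5 k hk).2⟩, h6⟩

/-- one pass over a context and a word that starts with a long run -/
theorem pass_fill {z X w w' : List Bool} {q q' : ℕ} (h6 : ∃ U', w = replicate 6 false ++ U' ∧ 2 ≤ U'.length)
    (h1 : T (q + chi X) w = w') (h2 : (q + chi X + chi w) % 3 = q' % 3) (h : Rch z ((dec (T q X ++ w')).drop (q' % 3))) :
    Rch z ((dec (X ++ w)).drop (q % 3)) := by
  rw [dec_append]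
  apply part X q (dec w) (long_of h6)
  apply partL _ _ h6
  rw [h1, h2, ← dec_append]
  exact h

/-- the context `X` can be filled with long gaps -/
def LFill (z : List Bool) (E G : ℕ) (X : List Bool) (q : ℕ) : Prop :=
  ∀ N s' l : ℕ, l % 2 = (s' % 3 + q % 3) % 2 → ∃ w, LAdm N G s' q w ∧ w.length % (2 * E) = l % (2 * E) ∧
    Rch z ((dec (X ++ w)).drop (q % 3))

theorem LFill.mono {z : List Bool} {E G G' : ℕ} {X : List Bool} {q : ℕ} (hG : G' ≤ G) (h : LFill z E G X q) : LFill z E G' X q := by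
  intro N s' l hl
  obtain ⟨w, h1, h2⟩ := h N s' l hl
  exact ⟨w, h1.mono le_rfl hG, h2⟩

theorem LFill.back {z : List Bool} {E G : ℕ} {X : List Bool} {q q' : ℕ} (hE : 0 < E) (hG : 8 ≤ G) (h : LFill z E G (T q X) q') :
    LFill z E (G + 1) X q := by
  intro N s' l hl
  obtain ⟨N', hb⟩ := backL E hE G hG (max N 8)
  obtain ⟨w', h1, _, h2⟩ := h N' (q + chi X) ((q + chi X) % 3 + q' % 3) rfl
  obtain ⟨w, g1, g2, g3, g4⟩ := hb _ _ w' h1 s' q l hl
  exact ⟨w, g3.mono (le_max_left _ _) le_rfl, g4, pass_fill (g3.six (le_max_right _ _)) g1 g2 h2⟩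

/-- the short version for the empty context -/
theorem seed_all {z : List Bool} (h : Seed z) (N : ℕ) : ∀ q s' : ℕ, ∃ w, LAdm N 8 s' q w ∧ Rch z ((dec w).drop (q % 3)) := by
  have h0 : ∃ q, ∀ s', ∃ w, LAdm 72 8 s' q w ∧ Rch z ((dec w).drop (q % 3)) := by
    obtain ⟨n, ks, m, q, hn, hm, hk, hq, hr⟩ := h
    obtain ⟨s, hs⟩ : ∃ s : ℕ, (n % 2 = 1 ↔ s % 3 ≠ 1) := by
      by_cases h1 : n % 2 = 1
      · exact ⟨0, by simp [h1]⟩
      · exact ⟨1, by simp [h1]⟩
    have ha : LAdm 72 8 s q (replicate n false ++ (true :: (code ks ++ replicate m false))) :=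
      ⟨n, ks, m, rfl, hn, hm, hk, hs, hq⟩
    refine ⟨s, fun s' => ?_⟩
    obtain ⟨w, g1, g2, g3⟩ := backS 72 s q _ le_rfl ha s' s
    refine ⟨w, g3.mono (by norm_num) le_rfl, ?_⟩
    have h2 : Rch z ((dec ([] ++ w)).drop (s % 3)) := by
      apply pass_fill (q' := q) (g3.six (by norm_num))
      · exact g1
      · exact g2
      · exact hr
    exact h2
  have hstep : ∀ M, 72 ≤ M → (∃ q, ∀ s', ∃ w, LAdm M 8 s' q w ∧ Rch z ((dec w).drop (q % 3))) →
      ∀ q s', ∃ w, LAdm (M + 1) 8 s' q w ∧ Rch z ((dec w).drop (q % 3)) := by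
    rintro M hM ⟨q0, hq0⟩ q s'
    obtain ⟨w', h1, h2⟩ := hq0 q
    obtain ⟨w, g1, g2, g3⟩ := backS M q q0 w' hM h1 s' q
    refine ⟨w, g3, ?_⟩
    have h3 : Rch z ((dec ([] ++ w)).drop (q % 3)) := by
      apply pass_fill (q' := q0) (g3.six (by omega))
      · exact g1
      · exact g2
      · exact h2
    exact h3
  have hall : ∀ d, ∀ q s', ∃ w, LAdm (73 + d) 8 s' q w ∧ Rch z ((dec w).drop (q % 3)) := by
    intro d
    induction d with
    | zero => exact hstep 72 le_rfl h0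
    | succ d ih => exact hstep (73 + d) (by omega) ⟨0, ih 0⟩
  intro q s'
  obtain ⟨w, h1, h2⟩ := hall N q s'
  exact ⟨w, h1.mono (by omega) le_rfl, h2⟩

theorem lfill_nil {z : List Bool} (h : Seed z) {E : ℕ} (hE : 0 < E) (G q : ℕ) : LFill z E G [] q := by
  have h9 : ∀ q, LFill z E 9 [] q := by
    intro q N s' l hl
    obtain ⟨N', hb⟩ := backL E hE 8 le_rfl (max N 8)
    obtain ⟨w', h1, h2⟩ := seed_all h N' 0 q
    obtain ⟨w, g1, g2, g3, g4⟩ := hb _ _ w' h1 s' q l hl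
    refine ⟨w, g3.mono (le_max_left _ _) le_rfl, g4, ?_⟩
    apply pass_fill (q' := 0) (g3.six (le_max_right _ _))
    · exact g1
    · exact g2
    · exact h2
  have hall : ∀ d, ∀ q, LFill z E (9 + d) [] q := by
    intro d
    induction d with
    | zero => exact h9
    | succ d ih =>
      intro q
      exact LFill.back (G := 9 + d) hE (by omega) (ih 0)
  exact (hall G q).mono (by omega)

theorem lfill_rep {z : List Bool} {E : ℕ} (h : ∀ G q, LFill z E G [] q) (k G q : ℕ) : LFill z E G (replicate k false) q := by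
  intro N s' l hl
  obtain ⟨s, hs⟩ : ∃ s : ℕ, ((k % 2 = 1) ↔ (s % 3 = 1 ↔ s' % 3 ≠ 1)) := by
    by_cases h1 : k % 2 = 1
    · by_cases h2 : s' % 3 = 1
      · exact ⟨0, by simp [h1, h2]⟩
      · exact ⟨1, by simp [h1, h2]⟩
    · by_cases h2 : s' % 3 = 1
      · exact ⟨1, by simp [h1, h2]⟩
      · exact ⟨0, by simp [h1, h2]⟩
  have hpar : (l + k) % 2 = (s % 3 + q % 3) % 2 := by
    have h3 : s % 3 = 0 ∨ s % 3 = 1 ∨ s % 3 = 2 := by omega
    have h4 : s' % 3 = 0 ∨ s' % 3 = 1 ∨ s' % 3 = 2 := by omega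
    rcases h3 with h3 | h3 | h3 <;> rcases h4 with h4 | h4 | h4 <;> simp only [h3, h4] at hs hl ⊢ <;> simp at hs <;> omega
  obtain ⟨w, ⟨n, ks, m, rfl, h2, h3, h4, h5, h6⟩, h8, h7⟩ := h G q (N + k) s (l + k) hpar
  refine ⟨replicate (n - k) false ++ (true :: (code ks ++ replicate m false)), ⟨n - k, ks, m, rfl, by omega, by omega, h4, ?_, h6⟩,
    ?_, ?_⟩
  · by_cases h8 : s % 3 = 1 <;> by_cases h9 : s' % 3 = 1 <;> simp only [h8, h9, ne_eq, not_true_eq_false, not_false_eq_true,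
      iff_true, iff_false, true_iff, false_iff] at hs h5 ⊢ <;> omega
  · have e1 : (replicate n false ++ (true :: (code ks ++ replicate m false))).length =
        (replicate (n - k) false ++ (true :: (code ks ++ replicate m false))).length + k := by
      simp only [List.length_append, List.length_replicate]
      omega
    rw [e1] at h8
    exact Nat.ModEq.add_right_cancel' k h8
  · rw [rep_add]
    rw [List.nil_append] at h7
    have : k + (n - k) = n := by omega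
    rw [this]
    exact h7

theorem lfill_kill {z : List Bool} {E : ℕ} (hE : 0 < E) (h : ∀ G q, LFill z E G [] q) (d : ℕ) : ∀ X u : List Bool, Reach d X u →
    true ∉ u → ∀ G, ∃ q, LFill z E G X q := by
  induction d with
  | zero =>
    intro X u hr hu G
    have hX : X = u := hr
    rw [hX, eq_replicate_of_no_b hu]
    exact ⟨0, lfill_rep h _ G 0⟩
  | succ d ih =>
    intro X u hr hu G
    obtain ⟨q, _, hr'⟩ := hr
    obtain ⟨q', hq⟩ := ih (T q X) u hr' hu (G + 8)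
    exact ⟨q, (LFill.back hE (by omega) hq).mono (by omega)⟩

/-- all contexts can be filled with long gaps -/
theorem lfill_all {z : List Bool} (h : Seed z) {E : ℕ} (hE : 0 < E) (X : List Bool) (G q : ℕ) : LFill z E G X q := by
  obtain ⟨d, u, h1, h2⟩ := exists_kill (T q X)
  obtain ⟨q', h3⟩ := lfill_kill hE (lfill_nil h hE) d (T q X) u h1 h2 (G + 8)
  exact (LFill.back hE (by omega) h3).mono (by omega)

theorem exists_inv3 (E : ℕ) (h0 : 0 < E) (h3 : E % 3 ≠ 0) (c s : ℕ) : ∃ l, (3 * l + s % 3) % (2 * E) = (2 * c) % (2 * E) := by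
  have key : ∀ e < 3, ∀ c < 3, ∀ s < 3, e ≠ 0 → ∃ t < 3, (2 * c + 2 * e * t + 2 * e) % 3 = s := by decide
  have h : ∃ t, (2 * c + 2 * E * t + 2 * E) % 3 = s % 3 ∧ s % 3 ≤ 2 * c + 2 * E * t + 2 * E := by
    obtain ⟨t, _, ht⟩ := key (E % 3) (Nat.mod_lt _ (by norm_num)) (c % 3) (Nat.mod_lt _ (by norm_num)) (s % 3)
      (Nat.mod_lt _ (by norm_num)) h3
    refine ⟨t, ?_, ?_⟩
    · rw [← ht]
      simp [Nat.add_mod, Nat.mul_mod]
    · have h4 : s % 3 ≤ 2 := by omega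
      have h5 : 2 ≤ 2 * E := by omega
      exact h4.trans (h5.trans (Nat.le_add_left _ _))
  obtain ⟨t, h1, h2⟩ := h
  refine ⟨(2 * c + 2 * E * t + 2 * E - s % 3) / 3, ?_⟩
  have e : 3 * ((2 * c + 2 * E * t + 2 * E - s % 3) / 3) + s % 3 = 2 * c + 2 * E * (t + 1) := by
    have : 2 * c + 2 * E * (t + 1) = 2 * c + 2 * E * t + 2 * E := by ring
    omega
  rw [e, Nat.add_mul_mod_self_left]

theorem dfill {z : List Bool} (h : Seed z) {E F : ℕ} (hE : E % 2 = 0) (h0 : 0 < E) (h3 : E % 3 ≠ 0) (hF : 0 < F) (N : ℕ)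
    (X : List Bool) (q ν μ ρ : ℕ) : ∃ w, DAdm E (E * F) N ν μ ρ w ∧ Rch z ((dec (X ++ w)).drop (q % 3)) := by
  obtain ⟨N', hd⟩ := dform E hE h0 h3 F hF (max N 8)
  obtain ⟨l, hl⟩ := exists_inv3 E h0 h3 (ν + μ + 3 * ρ + 2) (q + chi X)
  have hl2 : l % 2 = ((q + chi X) % 3 + 0 % 3) % 2 := by
    have h4 : (3 * l + (q + chi X) % 3) % 2 = (2 * (ν + μ + 3 * ρ + 2)) % 2 := by
      have h5 : 2 ∣ 2 * E := ⟨E, rfl⟩
      rw [← Nat.mod_mod_of_dvd _ h5, hl, Nat.mod_mod_of_dvd _ h5]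
    omega
  obtain ⟨w', h1, h2, h4⟩ := lfill_all h h0 (T q X) N' 0 N' (q + chi X) l hl2
  obtain ⟨w, g1, g2, g3⟩ := hd (q + chi X) 0 w' h1 ν μ ρ (by
    have e1 : (3 * w'.length + (q + chi X) % 3) % (2 * E) = (3 * l + (q + chi X) % 3) % (2 * E) := by
      rw [Nat.add_mod, Nat.mul_mod, h2, ← Nat.mul_mod, ← Nat.add_mod]
    rw [e1, hl]
    simp)
  exact ⟨w, g3.mono (le_max_left _ _), pass_fill (g3.six (le_max_right _ _)) g1 g2 h4⟩

/-- the context `X` can be filled with gaps `1` modulo `3 ^ a * E`, the residues of the outer runs do not depend on the aim `z` -/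
theorem tfill (a : ℕ) : ∀ E F : ℕ, E % 2 = 0 → 0 < E → E % 3 ≠ 0 → 0 < F → ∀ (X : List Bool) (q x y : ℕ), ∃ ν μ : ℕ,
    ν % E = x % E ∧ μ % E = y % E ∧ ∀ z, Seed z → ∀ N ρ : ℕ, ∃ w, DAdm (3 ^ a * E) (2 ^ a * E * F) N ν μ ρ w ∧
      Rch z ((dec (X ++ w)).drop (q % 3)) := by
  induction a with
  | zero =>
    intro E F hE h0 h3 hF X q x y
    refine ⟨x, y, rfl, rfl, fun z hz N ρ => ?_⟩
    rw [pow_zero, pow_zero, one_mul]
    exact dfill hz hE h0 h3 hF N X q x y ρ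
  | succ a ih =>
    intro E F hE h0 h3 hF X q x y
    obtain ⟨x', hx1, hx2⟩ := solve E (q + chi X) x h0 h3
    obtain ⟨y', hy1, hy2⟩ := solve E 1 y h0 h3
    obtain ⟨ν', μ', hν, hμ, hz⟩ := ih (2 * E) F (by omega) (by omega) (by omega) hF (T q X) 0 x' y'
    have hνp : ν' % 2 = 1 ↔ (q + chi X) % 3 ≠ 1 := by
      have : ν' % 2 = x' % 2 := by
        have h5 : 2 ∣ 2 * E := ⟨E, rfl⟩
        rw [← Nat.mod_mod_of_dvd ν' h5, hν, Nat.mod_mod_of_dvd _ h5]
      rw [this]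
      exact hx1
    have hμp : μ' % 2 = 0 := by
      have : μ' % 2 = y' % 2 := by
        have h5 : 2 ∣ 2 * E := ⟨E, rfl⟩
        rw [← Nat.mod_mod_of_dvd μ' h5, hμ, Nat.mod_mod_of_dvd _ h5]
      have h6 : ¬ (y' % 2 = 1) := fun h => (hy1.1 h) (by norm_num)
      omega
    have hdvd : E ∣ 3 * E := ⟨3, by ring⟩
    refine ⟨up (q + chi X) ν', 3 * μ' / 2, ?_, ?_, fun z hs N ρ => ?_⟩
    · have h5 := up_congr E (q + chi X) ν' x' hνp hν
      rw [← Nat.mod_mod_of_dvd _ hdvd, h5, Nat.mod_mod_of_dvd _ hdvd, hx2]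
    · have h5 := up_congr E 1 μ' y' (by constructor <;> intro h <;> omega) hμ
      have e1 : up 1 μ' = 3 * μ' / 2 := by simp [up]
      rw [← e1, ← Nat.mod_mod_of_dvd _ hdvd, h5, Nat.mod_mod_of_dvd _ hdvd, hy2]
    · obtain ⟨w', h1, h2⟩ := hz z hs (max N 8) ρ
      have e1 : 3 ^ a * (2 * E) = 2 * (3 ^ a * E) := by ring
      have e2 : 2 ^ a * (2 * E) * F = 2 ^ (a + 1) * E * F := by ring
      have e3 : 3 ^ (a + 1) * E = 3 * (3 ^ a * E) := by ring
      rw [e1, e2] at h1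
      obtain ⟨w, g1, g2, g3⟩ := triv (3 ^ a * E) (2 ^ (a + 1) * E * F) (max N 8) (q + chi X) w' ν' μ' ρ (by positivity)
        (by rw [Nat.mul_mod, hE]; simp) h1 hνp hμp
      rw [e3]
      exact ⟨w, g3.mono (le_max_left _ _), pass_fill (q' := 0) (g3.six (le_max_right _ _)) g1 (by simpa using g2) h2⟩

end Pool.Agent.PR33
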