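import Pool.Agent.PR33.Defs

/-!
# [PR33-Filler] gaps `1` modulo `D` which write only zeros (helper52)

From the phase `1` a gap `3 D Y + 1` and its `b` write `2 (D Y + 1)` zeros and end in the phase `1`. With many such gaps every large even
number of zeros is written, the number of gaps is prescribed modulo `D F` as far as possible.
-/

set_option autoImplicit false

namespace Pool.Agent.PR33

open Pool.Agent.PostTag Pool.Agent.PT33 List

/-- gaps `3 D Y + 1` from the phase `1` -/
theorem filler_aux (D : ℕ) (hD : D % 2 = 0) (ys : List ℕ) :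
    T 1 (code (ys.map fun y => 3 * (D * y) + 1)) = replicate (2 * (D * ys.sum + ys.length)) false ∧
      chi (code (ys.map fun y => 3 * (D * y) + 1)) % 3 = 0 := by
  induction ys with
  | nil => exact ⟨rfl, rfl⟩
  | cons y ys ih =>
    obtain ⟨h1, h2⟩ := ih
    have hev : (D * y) % 2 = 0 := by rw [Nat.mul_mod, hD, Nat.zero_mul, Nat.zero_mod]
    obtain ⟨m, hm⟩ : ∃ m, m = D * y := ⟨_, rfl⟩
    have hodd : (3 * (D * y) + 1) % 2 = 1 := by rw [← hm] at hev ⊢; omega
    have e1 : code ((y :: ys).map fun y => 3 * (D * y) + 1) =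
        replicate (3 * (D * y) + 1) false ++ ([true] ++ code (ys.map fun y => 3 * (D * y) + 1)) := by
      simp only [List.map_cons, code, run1, hodd, if_true]
    have e4 : T (1 + (3 * (D * y) + 1)) [true] = [false] := T_run2 (by omega)
    have e5 : chi [true] = 2 := rfl
    have e6 : ([false] : List Bool) = replicate 1 false := rfl
    have e7 : nm 1 (3 * (D * y) + 1) = 2 * (D * y) + 1 := by
      rw [← hm]
      simp only [nm]
      omega
    have e8 : (1 + (3 * (D * y) + 1) + 2) % 3 = 1 % 3 := by omega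
    rw [e1]
    refine ⟨?_, ?_⟩
    · rw [T_gap, T_append, e4, e5, T_congr _ e8, h1, e7, e6, rep_add, ← List.replicate_add]
      congr 1
      simp only [List.sum_cons, List.length_cons]
      ring
    · rw [chi_append, chi_append, chi_replicate, e5]
      omega

/-- Every large even number of zeros is written by gaps `1` modulo `D` from the phase `1`. -/
theorem filler (D F N : ℕ) (hD : D % 2 = 0) (h0 : 0 < D) (hF : 0 < F) : ∃ Z, ∀ z r : ℕ, Z ≤ z → r % D = z % D →
    ∃ fl : List ℕ, N ≤ fl.length ∧ (∀ j ∈ fl, N ≤ j ∧ j % 2 = 1 ∧ j % D = 1 % D) ∧ T 1 (code fl) = replicate (2 * z) false ∧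
      chi (code fl) % 3 = 0 ∧ fl.length % (D * F) = r % (D * F) := by
  have hDF : 0 < D * F := Nat.mul_pos h0 hF
  refine ⟨(D * F * (N + 2)) * (1 + D * N), fun z r hz hr => ?_⟩
  -- the number of gaps
  obtain ⟨L, hL⟩ : ∃ L, L = r % (D * F) + D * F * (N + 1) := ⟨_, rfl⟩
  have hLmax : L ≤ D * F * (N + 2) := by
    have := Nat.mod_lt r hDF
    rw [hL]
    have e : D * F * (N + 2) = D * F * (N + 1) + D * F := by ring
    omega
  have hLN : N + 1 ≤ L := by
    rw [hL]
    have : 1 * (N + 1) ≤ D * F * (N + 1) := Nat.mul_le_mul_right _ hDF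
    omega
  have hLr : L % (D * F) = r % (D * F) := by
    rw [hL, Nat.add_mul_mod_self_left, Nat.mod_mod]
  have hLz : L % D = z % D := by
    rw [← hr, ← Nat.mod_mul_right_mod r D F, ← hLr, Nat.mod_mul_right_mod]
  have hzL : L * (1 + D * N) ≤ z := le_trans (Nat.mul_le_mul_right _ hLmax) hz
  have hzL' : L + D * (L * N) ≤ z := by
    have e : L * (1 + D * N) = L + D * (L * N) := by ring
    omega
  -- the sum of the `Y`
  obtain ⟨S, hS⟩ : ∃ S, z = L + D * S := by
    have h1 : L ≤ z := by omega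
    obtain ⟨S, hS⟩ := (Nat.modEq_iff_dvd' h1).1 hLz
    exact ⟨S, by omega⟩
  have hSL : L * N ≤ S := by
    have h1 : D * (L * N) ≤ D * S := by omega
    exact Nat.le_of_mul_le_mul_left h1 h0
  obtain ⟨L', rfl⟩ : ∃ L', L = L' + 1 := ⟨L - 1, by omega⟩
  obtain ⟨y0, hy0⟩ : ∃ y0, S = y0 + L' * N := by
    refine ⟨S - L' * N, ?_⟩
    have : L' * N ≤ (L' + 1) * N := Nat.mul_le_mul_right _ (by omega)
    omega
  have hy0N : N ≤ y0 := by
    have : (L' + 1) * N = L' * N + N := by ring
    omega
  have hj : ∀ y, N ≤ y → N ≤ 3 * (D * y) + 1 ∧ (3 * (D * y) + 1) % 2 = 1 ∧ (3 * (D * y) + 1) % D = 1 % D := by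
    intro y hy
    refine ⟨?_, ?_, ?_⟩
    · have : 1 * y ≤ D * y := Nat.mul_le_mul_right _ h0
      omega
    · have hev : (D * y) % 2 = 0 := by rw [Nat.mul_mod, hD, Nat.zero_mul, Nat.zero_mod]
      obtain ⟨m, hm⟩ : ∃ m, m = D * y := ⟨_, rfl⟩
      rw [← hm] at hev ⊢
      omega
    · have e : 3 * (D * y) + 1 = 1 + D * (3 * y) := by ring
      rw [e, Nat.add_mul_mod_self_left]
  obtain ⟨h1, h2⟩ := filler_aux D hD (y0 :: List.replicate L' N)
  refine ⟨(y0 :: List.replicate L' N).map fun y => 3 * (D * y) + 1, ?_, ?_, ?_, h2, ?_⟩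
  · simp only [List.length_map, List.length_cons, List.length_replicate]
    omega
  · intro j hjm
    obtain ⟨y, hy, rfl⟩ := List.mem_map.1 hjm
    refine hj y ?_
    rcases List.mem_cons.1 hy with rfl | hy
    · exact hy0N
    · exact (List.eq_of_mem_replicate hy).ge
  · rw [h1]
    congr 1
    simp only [List.sum_cons, List.length_cons, List.length_replicate, List.sum_replicate, smul_eq_mul]
    rw [hS, hy0]
    ring
  · simp only [List.length_map, List.length_cons, List.length_replicate]
    exact hLr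

end Pool.Agent.PR33
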