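import Pool.Agent.PR33.Defs

/-!
# [PR33-Seeds] computations with long gaps that end in cycles of all the lengths (helper33)

As `PT33.Data` and `PT33.Tab`, but all gaps have length at least eight and the outer runs length at least `72`.
-/

set_option autoImplicit false

namespace Pool.Agent.PR33

open Pool.Agent.PostTag Pool.Agent.PT33 List

/-- the finite check of a family -/
def okD (d : Data) : Bool :=
  decide (72 ≤ d.n) && (decide (72 ≤ d.m) && (decide (d.m % 2 = 1 ↔ d.q % 3 = 1) && (d.k1.all (fun k => decide (8 ≤ k)) &&
    (d.us.all (fun k => decide (8 ≤ k)) && (d.e1.all (fun k => decide (8 ≤ k)) &&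
      ((List.range d.J).all (fun j => chk (lev^[j] (top d))) && (decide (lev^[d.J] (top d) = bot d) &&
        (decide ((d.q0 + chi d.X1) % 3 = 1) && okG (GG d)))))))))

theorem mem_rp {α : Type} {a : α} {U : List α} (t : ℕ) (h : a ∈ rp t U) : a ∈ U := by
  induction t with
  | zero => simp [rp] at h
  | succ t ih =>
    rw [rp, List.mem_append] at h
    rcases h with h | h
    · exact h
    · exact ih h

theorem seed_data {d : Data} (h : okD d = true) (t : ℕ) :
    Seed (ZZ (GG d) t) ∧ Function.minimalPeriod step (ZZ (GG d) t) = (GG d).length + 12 * t := by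
  simp only [okD, Bool.and_eq_true, decide_eq_true_eq, List.all_eq_true, List.mem_range] at h
  obtain ⟨h1, h2, h3, h4, h5, h6, h8, h9, h10, h11⟩ := h
  refine ⟨⟨d.n, d.k1 ++ (rp t d.us ++ d.e1), d.m, d.q, h1, h2, ?_, h3, ?_⟩, least_XX h11 t⟩
  · intro k hk
    rw [List.mem_append, List.mem_append] at hk
    rcases hk with hk | hk | hk
    · exact h4 k hk
    · exact h5 k (mem_rp t hk)
    · exact h6 k hk
  · have e1 : replicate d.n false ++ (true :: (code (d.k1 ++ (rp t d.us ++ d.e1)) ++ replicate d.m false)) =
        word t (top d) := by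
      simp only [word, top, code_append, code_rp, List.append_assoc, List.cons_append]
    rw [e1]
    apply levels t d.J (top d) h8
    rw [h9]
    exact to_zz d t h10

/-- the finite check of one computation -/
def okS2 (n : ℕ) (ks : List ℕ) (m q J d p : ℕ) : Bool :=
  decide (72 ≤ n) && (decide (72 ≤ m) && (decide (m % 2 = 1 ↔ q % 3 = 1) && (ks.all (fun k => decide (8 ≤ k)) &&
    ((List.range J).all (fun j => decide (6 ≤ (pw^[j] (q, sw n ks m)).2.length)) &&
      (decide (2 ≤ ((pw^[J] (q, sw n ks m)).2.drop d).length) &&
        (decide (((pw^[J] (q, sw n ks m)).1 + chi ((pw^[J] (q, sw n ks m)).2.take d)) % 3 = 1) &&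
          (decide (T 1 (sx d (pw^[J] (q, sw n ks m))) = sx d (pw^[J] (q, sw n ks m))) &&
            (decide (chi (sx d (pw^[J] (q, sw n ks m))) % 3 = 0) && (decide ((sx d (pw^[J] (q, sw n ks m))).length = p) &&
              (decide (6 ≤ p) && (List.range p).all (fun g => decide (g = 0 ∨ p < 2 * g ∨
                (sx d (pw^[J] (q, sw n ks m))).drop g ≠ (sx d (pw^[J] (q, sw n ks m))).take (p - g)))))))))))))

theorem seed_single {n : ℕ} {ks : List ℕ} {m q J d p : ℕ} (h : okS2 n ks m q J d p = true) :
    ∃ z, Seed z ∧ Function.minimalPeriod step z = p := by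
  simp only [okS2, Bool.and_eq_true, decide_eq_true_eq, List.all_eq_true, List.mem_range] at h
  obtain ⟨h1, h2, h3, h4, h5, h6, h7, h8, h9, h10, h11, h12⟩ := h
  obtain ⟨c, hc⟩ : ∃ c, c = pw^[J] (q, sw n ks m) := ⟨_, rfl⟩
  rw [← hc] at h6 h7 h8 h9 h10 h12
  obtain ⟨X, hX⟩ : ∃ X, X = sx d c := ⟨_, rfl⟩
  rw [← hX] at h8 h9 h10 h12
  refine ⟨(dec X).drop 1, ?_, ?_⟩
  · refine ⟨n, ks, m, q, h1, h2, h4, h3, ?_⟩
    have h13 : Rch ((dec X).drop 1) ((dec (pw^[J] (q, sw n ks m)).2).drop ((pw^[J] (q, sw n ks m)).1 % 3)) := by
      rw [← hc]
      have e1 : c.2 = c.2.take d ++ c.2.drop d := (List.take_append_drop d c.2).symm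
      rw [e1, dec_append]
      apply part _ _ _ (two_le _ h6)
      rw [h7, ← dec_append, hX]
      exact ⟨0, rfl⟩
    exact passes J (q, sw n ks m) h5 h13
  · obtain ⟨x1, x2, x3, x4, x5, x6, X', hX6⟩ : ∃ x1 x2 x3 x4 x5 x6 X', X = x1 :: x2 :: x3 :: x4 :: x5 :: x6 :: X' := by
      have hl : 6 ≤ X.length := by omega
      rcases X with _ | ⟨x1, _ | ⟨x2, _ | ⟨x3, _ | ⟨x4, _ | ⟨x5, _ | ⟨x6, X'⟩⟩⟩⟩⟩⟩
      · simp at hl
      · simp at hl
      · simp at hl
      · simp at hl
      · simp at hl
      · simp at hl
      · exact ⟨x1, x2, x3, x4, x5, x6, X', rfl⟩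
    have hd4 : ∀ x1 x2 x3 x4 : Bool, 2 ≤ (T 1 [x1, x2, x3, x4]).length := by decide
    have e : X = [x1, x2, x3, x4] ++ (x5 :: x6 :: X') := hX6
    rw [← h10]
    apply least (by omega)
    · have := periodic (A := [x1, x2, x3, x4]) (B := x5 :: x6 :: X') (by rw [← e]; exact h8) (by rw [← e]; exact h9)
        (hd4 x1 x2 x3 x4) (by simp)
      rwa [← e] at this
    · intro j hj
      have := heads_fix (A := [x1, x2, x3, x4]) (B := x5 :: x6 :: X') (by rw [← e]; exact h8) (hd4 x1 x2 x3 x4) (by simp) j
        (by rw [← e]; exact hj)
      rwa [← e] at this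
    · intro g hg hg2
      rw [h10]
      rcases h12 g (by omega) with h | h | h
      · omega
      · omega
      · exact h

/-! ### Halting -/

theorem rch_rep (n : ℕ) : Rch [false, false] (replicate (n + 2) false) := by
  induction n with
  | zero => exact ⟨0, rfl⟩
  | succ n ih =>
    apply Rch.of_step
    have e : step (replicate (n + 1 + 2) false) = replicate (n + 2) false := by
      have e1 : replicate (n + 1 + 2) false = false :: false :: false :: replicate n false := rfl
      have e2 : replicate (n + 2) false = replicate n false ++ [false, false] := by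
        rw [List.replicate_add]
        rfl
      rw [e1, e2]
      simp [step]
    rw [e]
    exact ih

theorem six_false {n : ℕ} (h : 6 ≤ n) (W : List Bool) : ∃ Z, replicate n false ++ W =
    false :: false :: false :: false :: false :: false :: Z := by
  obtain ⟨j, rfl⟩ := Nat.exists_eq_add_of_le h
  exact ⟨replicate j false ++ W, by rw [List.replicate_add]; rfl⟩

set_option maxRecDepth 100000 in
/-- a computation with long gaps that halts -/
theorem seed_halt : Seed [false, false] := by
  refine ⟨74, [], 74, 0, by norm_num, by norm_num, by simp, by norm_num, ?_⟩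
  have h : Rch [false, false] ((dec (replicate 74 false ++ (true :: (code [] ++ replicate 74 false))) ++ dec []).drop (0 % 3)) := by
    apply partL 0 (dec [])
    · refine ⟨replicate 68 false ++ (true :: (code [] ++ replicate 74 false)), rfl, ?_⟩
      simp [code]
    · have e : T 0 (replicate 74 false ++ (true :: (code [] ++ replicate 74 false))) = replicate 100 false := by decide +kernel
      have hc : (0 + chi (replicate 74 false ++ (true :: (code [] ++ replicate 74 false)))) % 3 < 3 := Nat.mod_lt _ (by norm_num)
      obtain ⟨r, hr⟩ : ∃ r, r = (0 + chi (replicate 74 false ++ (true :: (code [] ++ replicate 74 false)))) % 3 := ⟨_, rfl⟩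
      rw [← hr] at hc ⊢
      have e0 : dec ([] : List Bool) = [] := rfl
      obtain ⟨j, hj⟩ : ∃ j, 2 * 100 - r = j + 2 := ⟨2 * 100 - r - 2, by omega⟩
      rw [e, dec_replicate_false, e0, List.nil_append, List.drop_replicate, hj]
      exact rch_rep j
  simpa using h

/-! ### The table -/

/-- period `12 t + 40` -/
def l4 : Data where
  n := 88
  k1 := [10, 13, 12, 254, 298, 87]
  us := [16, 201, 87]
  e1 := [25, 94, 9, 21, 17, 11]
  m := 83
  q := 1
  J := 11
  q0 := 1
  X1 := [false, false, true, true, false, false, false, true, true, true, false, false, false, true, true, true, false, false, false, true, true, true, false, false, false]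
  E0 := [false, false, false, true, true, true, false, false, false, true, true, true, false]

set_option maxRecDepth 100000 in
theorem ok_l4 : okD l4 = true := by decide +kernel

theorem len_l4 : (GG l4).length = 40 := by decide +kernel

/-- period `12 t + 46` -/
def l10 : Data where
  n := 77
  k1 := [10, 15, 121, 19, 203, 85, 18, 201, 87]
  us := [16, 201, 87]
  e1 := [95, 12, 71, 16, 16, 21, 17, 11]
  m := 78
  q := 0
  J := 11
  q0 := 1
  X1 := [false, false, true, true, false, false, false, true, true, true, false, false, false, true, true, true, false, false, false, true, true, true, false, false, false, true, true, true, false, false, false]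
  E0 := [false, false, false, true, true, true, false, false, false, true, true, true, false]

set_option maxRecDepth 100000 in
theorem ok_l10 : okD l10 = true := by decide +kernel

theorem len_l10 : (GG l10).length = 46 := by decide +kernel

/-- period `12 t + 38` -/
def l2 : Data where
  n := 77
  k1 := [10, 15, 18, 21, 11, 453, 18, 102]
  us := [26, 298, 19, 102]
  e1 := [39, 141, 58, 23, 29, 31, 13, 11]
  m := 78
  q := 0
  J := 12
  q0 := 2
  X1 := [false, false, true, false, true, true, true, false, false, false, true, true, true, false, false, false, true, true, true, false, false, false]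
  E0 := [false, false, false, true, true, true, false, false, false, true, true, true, false, false]

set_option maxRecDepth 100000 in
theorem ok_l2 : okD l2 = true := by decide +kernel

theorem len_l2 : (GG l2).length = 38 := by decide +kernel

/-- period `12 t + 44` -/
def l8 : Data where
  n := 83
  k1 := [10, 13, 122, 27, 202, 56]
  us := [10, 135, 58]
  e1 := [63, 8, 48, 10, 13, 14, 11]
  m := 84
  q := 0
  J := 10
  q0 := 2
  X1 := [false, false, true, true, true, false, false, false, true, false, true, true, true, false, false, false, true, true, true, false, false, false, true, true, true, false, false, false]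
  E0 := [false, false, false, true, true, true, false, false, false, true, true, true, false, false]

set_option maxRecDepth 100000 in
theorem ok_l8 : okD l8 = true := by decide +kernel

theorem len_l8 : (GG l8).length = 44 := by decide +kernel

/-- period `12 t + 42` -/
def l6 : Data where
  n := 122
  k1 := [10, 13, 12, 11, 100, 39, 315, 85]
  us := [16, 201, 87]
  e1 := [95, 12, 11, 11, 21, 12, 13, 11, 13]
  m := 126
  q := 0
  J := 11
  q0 := 0
  X1 := [false, true, true, true, false, false, false, true, false, true, true, true, false, false, false, true, true, true, false, false, false, true, true, true, false, false, false]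
  E0 := [false, false, true, true, false, false, false, true, true, true, false, false]

set_option maxRecDepth 100000 in
theorem ok_l6 : okD l6 = true := by decide +kernel

theorem len_l6 : (GG l6).length = 42 := by decide +kernel

/-- period `12 t + 48` -/
def l0 : Data where
  n := 86
  k1 := [10, 13, 48, 111, 27, 202, 56]
  us := [10, 135, 58]
  e1 := [63, 8, 8, 27, 18, 11]
  m := 78
  q := 0
  J := 10
  q0 := 2
  X1 := [false, false, true, true, true, false, false, false, true, true, true, false, false, false, true, false, true, true, true, false, false, false, true, true, true, false, false, false, true, true, true, false, false, false]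
  E0 := [false, false, true, true, false, false, false, true, true, true, false, false]

set_option maxRecDepth 100000 in
theorem ok_l0 : okD l0 = true := by decide +kernel

theorem len_l0 : (GG l0).length = 48 := by decide +kernel

set_option maxRecDepth 100000 in
theorem seed_6 : okS2 73 [10, 15, 17, 11] 75 1 11 1 6 = true := by decide +kernel

set_option maxRecDepth 100000 in
theorem seed_10 : okS2 77 [10, 13, 14, 19, 11] 84 0 21 5 10 = true := by decide +kernel

set_option maxRecDepth 100000 in
theorem seed_14 : okS2 86 [10, 15, 11, 12, 21, 13, 11, 13] 96 0 13 2 14 = true := by decide +kernel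

set_option maxRecDepth 100000 in
theorem seed_16 : okS2 86 [10, 13, 20, 13, 11, 13] 96 0 12 13 16 = true := by decide +kernel

set_option maxRecDepth 100000 in
theorem seed_18 : okS2 76 [10, 15, 11, 12, 13] 77 1 10 3 18 = true := by decide +kernel

set_option maxRecDepth 100000 in
theorem seed_20 : okS2 83 [10, 13, 12, 9, 14, 11, 13] 92 0 12 3 20 = true := by decide +kernel

set_option maxRecDepth 100000 in
theorem seed_22 : okS2 74 [10, 15, 12, 9, 12, 13, 11] 80 0 11 1 22 = true := by decide +kernel

set_option maxRecDepth 100000 in
theorem seed_24 : okS2 73 [10, 15, 29, 26, 18, 16, 19, 11] 75 1 14 3 24 = true := by decide +kernel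

set_option maxRecDepth 100000 in
theorem seed_26 : okS2 95 [10, 15, 23, 33, 17, 32, 19, 26, 14, 11] 72 0 16 2 26 = true := by decide +kernel

set_option maxRecDepth 100000 in
theorem seed_28 : okS2 73 [10, 15, 11, 18, 10, 14, 11, 13] 87 1 13 1 28 = true := by decide +kernel

set_option maxRecDepth 100000 in
theorem seed_30 : okS2 101 [10, 15, 18, 44, 74, 8, 25, 26, 14, 11] 86 0 13 1 30 = true := by decide +kernel

set_option maxRecDepth 100000 in
theorem seed_32 : okS2 101 [10, 15, 23, 18, 35, 42, 27, 29, 14, 11] 86 0 15 2 32 = true := by decide +kernel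

set_option maxRecDepth 100000 in
theorem seed_34 : okS2 77 [10, 15, 121, 19, 203, 85, 97, 12, 71, 16, 16, 21, 17, 11] 78 0 11 7 34 = true := by decide +kernel

set_option maxRecDepth 100000 in
theorem seed_36 : okS2 76 [10, 8, 15, 19, 9] 83 1 95 5 36 = true := by decide +kernel

/-- the least periods -/
theorem all_seeds (p : ℕ) (hp : p = 6 ∨ p = 10 ∨ (14 ≤ p ∧ Even p)) : ∃ z, Seed z ∧ Function.minimalPeriod step z = p := by
  by_cases hs : p < 48 ∧ p ≠ 38 ∧ p ≠ 40 ∧ p ≠ 42 ∧ p ≠ 44 ∧ p ≠ 46
  · have h : p = 6 ∨ p = 10 ∨ p = 14 ∨ p = 16 ∨ p = 18 ∨ p = 20 ∨ p = 22 ∨ p = 24 ∨ p = 26 ∨ p = 28 ∨ p = 30 ∨ p = 32 ∨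
        p = 34 ∨ p = 36 := by
      rcases hp with h | h | ⟨h, e⟩
      · omega
      · omega
      · rw [Nat.even_iff] at e
        omega
    rcases h with rfl | rfl | rfl | rfl | rfl | rfl | rfl | rfl | rfl | rfl | rfl | rfl | rfl | rfl
    · exact seed_single seed_6
    · exact seed_single seed_10
    · exact seed_single seed_14
    · exact seed_single seed_16
    · exact seed_single seed_18
    · exact seed_single seed_20
    · exact seed_single seed_22
    · exact seed_single seed_24
    · exact seed_single seed_26
    · exact seed_single seed_28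
    · exact seed_single seed_30
    · exact seed_single seed_32
    · exact seed_single seed_34
    · exact seed_single seed_36
  · have he : p % 2 = 0 := by
      rcases hp with h | h | ⟨h, e⟩
      · omega
      · omega
      · exact Nat.even_iff.1 e
    have hf : ∀ (d : Data) (s : ℕ), okD d = true → (GG d).length = s → s ≤ p → p % 12 = s % 12 →
        ∃ z, Seed z ∧ Function.minimalPeriod step z = p := by
      intro d s h1 h2 h3 h4
      obtain ⟨t, ht⟩ : ∃ t, p = s + 12 * t := ⟨(p - s) / 12, by omega⟩
      obtain ⟨f1, f2⟩ := seed_data h1 t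
      exact ⟨_, f1, by rw [f2, h2, ht]⟩
    have hr : p % 12 = 0 ∨ p % 12 = 2 ∨ p % 12 = 4 ∨ p % 12 = 6 ∨ p % 12 = 8 ∨ p % 12 = 10 := by omega
    rcases hr with hr | hr | hr | hr | hr | hr
    · exact hf l0 48 ok_l0 len_l0 (by omega) (by omega)
    · exact hf l2 38 ok_l2 len_l2 (by omega) (by omega)
    · exact hf l4 40 ok_l4 len_l4 (by omega) (by omega)
    · exact hf l6 42 ok_l6 len_l6 (by omega) (by omega)
    · exact hf l8 44 ok_l8 len_l8 (by omega) (by omega)
    · exact hf l10 46 ok_l10 len_l10 (by omega) (by omega)

end Pool.Agent.PR33
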