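import Pool.Agent.PR33.Ctx
import Pool.Agent.PR33.Seeds

/-!
# [PR33-Final] the classes of a finite monoid do not see whether the tag system halts nor the length of the cycle (helper33)
-/

set_option autoImplicit false

namespace Pool.Agent.PR33

open Pool.Agent.PostTag Pool.Agent.PT33 List

/-- the main theorem for `step` -/
theorem main {M : Type} [Monoid M] [Finite M] (f : List Bool → M) (h1 : f [] = 1) (hf : ∀ x y, f (x ++ y) = f x * f y)
    (u v : List Bool) : ∃ g : M,
      (∀ L : ℕ, ∃ w : List Bool, f w = g ∧ L ≤ w.length ∧ ∃ k, (step^[k] (u ++ w ++ v)).length < 3) ∧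
      ∀ L p : ℕ, (p = 6 ∨ p = 10 ∨ (14 ≤ p ∧ Even p)) → ∃ w : List Bool, f w = g ∧ L ≤ w.length ∧
        (∀ j, 3 ≤ (step^[j] (u ++ w ++ v)).length) ∧ ∃ k, Function.minimalPeriod step (step^[k] (u ++ w ++ v)) = p := by
  obtain ⟨g, hg⟩ := mcontext f h1 hf u v [false, false] seed_halt
  refine ⟨g, fun L => ?_, fun L p hp => ?_⟩
  · obtain ⟨w, h2, h3, k, h4⟩ := hg [false, false] seed_halt L
    exact ⟨w, h2, h3, k, by rw [h4]; decide⟩
  · obtain ⟨z, s1, s2⟩ := all_seeds p hp
    obtain ⟨w, h2, h3, k, h4⟩ := hg z s1 L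
    have h5 : Function.minimalPeriod step (step^[k] (u ++ w ++ v)) = p := by rw [h4, s2]
    exact ⟨w, h2, h3, long_words (k := k) (by rw [h5]; omega), k, h5⟩

end Pool.Agent.PR33
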